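import Pool.Agent.Helper62.GL.In
import Pool.Agent.Helper56.MW.E7
import Pool.Agent.Helper56.MW.F1
import Pool.Agent.Helper56.MW.H10

/-!
# Definability of the auxiliary notions
-/

open FirstOrder FirstOrder.Language Ordinal Cardinal Set Helper23.Pcf

universe u v

namespace Pool.Agent.Helper56.GL

open Pool.Agent.Helper56.MW (LSet DefBy val exists_val Nrm nrm_congr Df)
open Pool.Agent.Helper56.MW.Df (exO allO exS allS memO memS ltO leO compVal limO relabel nrm
  H10_order H10_exDef)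
open Pool.Agent.Helper97.FP (Wo)
open Pool.Agent.Helper62.GL

section

variable {α β : Type}

theorem df_ltVO (g : β) (ξ ν : α) : Df.{u} (fun a s => val (s g) (a ξ) < a ν) :=
  compVal (P := fun v a _ => v < a ν) g ξ (ltO none (some ν))

theorem df_ltOV (g : β) (ξ ν : α) : Df.{u} (fun a s => a ν < val (s g) (a ξ)) :=
  compVal (P := fun v a _ => a ν < v) g ξ (ltO (some ν) none)

theorem df_ltVV (g g' : β) (ξ ξ' : α) :
    Df.{u} (fun a s => val (s g) (a ξ) < val (s g') (a ξ')) :=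
  compVal (P := fun v a s => v < val (s g') (a ξ')) g ξ
    (compVal (α := Option α) (P := fun v' a _ => a none < v') g' (some ξ')
      (ltO (some none) none))

theorem df_leVV (g g' : β) (ξ ξ' : α) :
    Df.{u} (fun a s => val (s g) (a ξ) ≤ val (s g') (a ξ')) :=
  compVal (P := fun v a s => v ≤ val (s g') (a ξ')) g ξ
    (compVal (α := Option α) (P := fun v' a _ => a none ≤ v') g' (some ξ')
      (leO (some none) none))

theorem df_bdd (o γ : α) (c : β) : Df.{u} (fun a s => ∀ n, n < a o → val (s c) n < a γ) :=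
  allO (P := fun n a s => n < a o → val (s c) n < a γ)
    ((ltO none (some o)).imp (df_ltVO c none (some γ)))

theorem df_Cs (o γ : α) (c : β) : Df.{u} (fun a s => Cs (a o) (a γ) (s c)) := by
  refine (df_bdd o γ c).and (Df.and ?_ ?_)
  · exact allO (P := fun n a s => n < a o → ∀ m, m < n → val (s c) m < val (s c) n)
      ((ltO none (some o)).imp
        (allO (α := Option α) (P := fun m a s => m < a none → val (s c) m < val (s c) (a none))
          ((ltO none (some none)).imp (df_ltVV c c none (some none)))))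
  · exact allO (P := fun b a s => b < a γ → ∃ n, n < a o ∧ b < val (s c) n)
      ((ltO none (some γ)).imp
        (exO (α := Option α) (P := fun n a s => n < a (some o) ∧ a none < val (s c) n)
          ((ltO none (some (some o))).and (df_ltOV c none (some none)))))

theorem df_Sq (o γ : α) (X : β) : Df.{u} (fun a s => Sq (a o) (a γ) (s X)) :=
  (exS (P := fun c _ s => c ∈ s X) (memS none (some X))).and
    (allS (P := fun c a s => c ∈ s X → Cs (a o) (a γ) c)
      ((memS none (some X)).imp (df_Cs o γ none)))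

/-- `c n ≤ t n` from some point on. -/
theorem df_le (o : α) (c t : β) :
    Df.{u} (fun a s => ∃ m, m < a o ∧ ∀ n, n < a o → m ≤ n → val (s c) n ≤ val (s t) n) :=
  exO (P := fun m a s => m < a o ∧ ∀ n, n < a o → m ≤ n → val (s c) n ≤ val (s t) n)
    ((ltO none (some o)).and
      (allO (α := Option α) (P := fun n a s => n < a (some o) → a none ≤ n →
          val (s c) n ≤ val (s t) n)
        ((ltO none (some (some o))).imp ((leO (some none) none).imp (df_leVV c t none none)))))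

theorem df_Ab (o γ : α) (X : β) : Df.{u} (fun a s => Ab (a o) (a γ) (s X)) :=
  exS (P := fun t a s => (∀ n, n < a o → val t n < a γ) ∧
      ∀ c, c ∈ s X → ∃ m, m < a o ∧ ∀ n, n < a o → m ≤ n → val c n ≤ val t n)
    ((df_bdd o γ none).and
      (allS (β := Option β) (P := fun c a s => c ∈ s (some X) →
          ∃ m, m < a o ∧ ∀ n, n < a o → m ≤ n → val c n ≤ val (s none) n)
        ((memS none (some (some X))).imp (df_le o none (some none)))))

theorem df_Be (o γ : α) (X : β) : Df.{u} (fun a s => Be (a o) (a γ) (s X)) :=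
  exS (P := fun t a s => Cs (a o) (a γ) t ∧
      ∀ c, c ∈ s X → ∃ m, m < a o ∧ ∀ n, n < a o → m ≤ n → val t n ≤ val c n)
    ((df_Cs o γ none).and
      (allS (β := Option β) (P := fun c a s => c ∈ s (some X) →
          ∃ m, m < a o ∧ ∀ n, n < a o → m ≤ n → val (s none) n ≤ val c n)
        ((memS none (some (some X))).imp (df_le o (some none) none))))

theorem df_Ls {n : ℕ} (φ : LSet.Formula (Fin n ⊕ Fin 2))
    {H : ZFSet.{u} → (α → Ordinal.{u}) → (β → ZFSet.{u}) → Prop}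
    (hH : Df (β := Option β) (fun a s => H (s none) a (fun i => s (some i)))) (Z : β) :
    Df (fun a s => Ls φ (fun X => H X a s) (s Z)) := by
  refine Df.and (Df.and ?_ (H10_exDef φ Z)) ?_
  · exact (relabel (α := α) (β := β) id (fun o => match o with
      | none => Z
      | some i => i) hH).congr fun a s => Iff.rfl
  · exact allS (P := fun Z' a s => (H Z' a s ∧ ∃ b, DefBy φ b Z') → ¬ Wo φ Z' (s Z))
      ((hH.and (H10_exDef φ none)).imp (H10_order φ none (some Z)).not)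

/-- (A1) -/
theorem df_Da {n : ℕ} (φ : LSet.Formula (Fin n ⊕ Fin 2)) (o γ : α) (X : β) :
    Df.{u} (fun a s => Da φ (a o) (a γ) (s X)) :=
  df_Ls φ (H := fun X a _ => Sq (a o) (a γ) X ∧ Ab (a o) (a γ) X)
    ((df_Sq o γ none).and (df_Ab o γ none)) X

theorem df_Db {n : ℕ} (φ : LSet.Formula (Fin n ⊕ Fin 2)) (o γ : α) (X : β) :
    Df.{u} (fun a s => Db φ (a o) (a γ) (s X)) :=
  df_Ls φ (H := fun X a _ => Sq (a o) (a γ) X ∧ Be (a o) (a γ) X)
    ((df_Sq o γ none).and (df_Be o γ none)) X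

theorem df_Cm (o ξ : α) (d c g₁ g : β) :
    Df.{u} (fun a s => Cm (a o) (s d) (s c) (val (s g₁) (a ξ)) (val (s g) (a ξ))) :=
  exO (P := fun n a s => n < a o ∧ val (s g₁) (a ξ) ≤ val (s d) n ∧
      val (s c) n < val (s g) (a ξ))
    ((ltO none (some o)).and ((df_leVV g₁ d (some ξ) none).and (df_ltVV c g none (some ξ))))

theorem df_Tl (o ν : α) (d c g₁ g : β) :
    Df.{u} (fun a s => Tl (a o) (s d) (s c) (val (s g₁)) (val (s g)) (a ν)) :=
  exO (P := fun ν₀ a s => ν₀ < a ν ∧ ∀ ξ, ν₀ < ξ → ξ < a ν →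
      Cm (a o) (s d) (s c) (val (s g₁) ξ) (val (s g) ξ))
    ((ltO none (some ν)).and
      (allO (α := Option α) (P := fun ξ a s => a none < ξ → ξ < a (some ν) →
          Cm (a (some o)) (s d) (s c) (val (s g₁) ξ) (val (s g) ξ))
        ((ltO (some none) none).imp ((ltO none (some (some ν))).imp
          (df_Cm (some (some o)) none d c g₁ g)))))

theorem df_Tn (o ν : α) (d c g₁ g : β) :
    Df.{u} (fun a s => Tn (a o) (s d) (s c) (val (s g₁)) (val (s g)) (a ν)) :=
  exO (P := fun ν₀ a s => ν₀ < a ν ∧ ∀ ξ, ν₀ < ξ → ξ < a ν →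
      ¬ Cm (a o) (s d) (s c) (val (s g₁) ξ) (val (s g) ξ))
    ((ltO none (some ν)).and
      (allO (α := Option α) (P := fun ξ a s => a none < ξ → ξ < a (some ν) →
          ¬ Cm (a (some o)) (s d) (s c) (val (s g₁) ξ) (val (s g) ξ))
        ((ltO (some none) none).imp ((ltO none (some (some ν))).imp
          (df_Cm (some (some o)) none d c g₁ g).not))))

variable {κ : Type} {D : (κ → Ordinal.{u}) → Ordinal.{u} → ZFSet.{u} → Prop}

theorem df_D (hD : Df (α := Option κ) (β := Unit) (fun a s => D (fun i => a (some i)) (a none) (s ())))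
    (ι : κ → α) (j : α) (X : β) : Df (fun a s => D (fun i => a (ι i)) (a j) (s X)) :=
  (relabel (α := α) (β := β) (fun o => match o with
    | none => j
    | some i => ι i) (fun _ => X) hD).congr fun a s => Iff.rfl

theorem df_DV (hD : Df (α := Option κ) (β := Unit) (fun a s => D (fun i => a (some i)) (a none) (s ())))
    (ι : κ → α) (g : β) (ν : α) (X : β) :
    Df (fun a s => D (fun i => a (ι i)) (val (s g) (a ν)) (s X)) :=
  compVal (P := fun v a s => D (fun i => a (ι i)) v (s X)) g ν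
    (df_D hD (fun i => some (ι i)) none X)

/-- The common part of `P1a`, `P0b`. -/
theorem df_EA (hD : Df (α := Option κ) (β := Unit) (fun a s => D (fun i => a (some i)) (a none) (s ())))
    (ι : κ → α) (g₁ g : β) (ν : α)
    {R : ZFSet.{u} → ZFSet.{u} → (α → Ordinal.{u}) → (β → ZFSet.{u}) → Prop}
    (hR : Df (β := Option (Option (Option (Option β)))) (fun a s => R (s (some none)) (s none) a
      (fun i => s (some (some (some (some i))))))) :
    Df (fun a s => ∃ X Y, D (fun i => a (ι i)) (val (s g₁) (a ν)) X ∧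
      D (fun i => a (ι i)) (val (s g) (a ν)) Y ∧ ∃ d, d ∈ X ∧ ∀ c, c ∈ Y → R d c a s) :=
  exS (P := fun X a s => ∃ Y, D (fun i => a (ι i)) (val (s g₁) (a ν)) X ∧
      D (fun i => a (ι i)) (val (s g) (a ν)) Y ∧ ∃ d, d ∈ X ∧ ∀ c, c ∈ Y → R d c a s)
    (exS (β := Option β) (P := fun Y a s => D (fun i => a (ι i)) (val (s (some g₁)) (a ν)) (s none) ∧
        D (fun i => a (ι i)) (val (s (some g)) (a ν)) Y ∧ ∃ d, d ∈ s none ∧ ∀ c, c ∈ Y →
          R d c a (fun i => s (some i)))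
      ((df_DV hD ι (some (some g₁)) ν (some none)).and
        ((df_DV hD ι (some (some g)) ν none).and
          (exS (β := Option (Option β)) (P := fun d a s => d ∈ s (some none) ∧ ∀ c, c ∈ s none →
              R d c a (fun i => s (some (some i))))
            ((memS none (some (some none))).and
              (allS (β := Option (Option (Option β))) (P := fun c a s => c ∈ s (some none) →
                  R (s none) c a (fun i => s (some (some (some i)))))
                ((memS none (some (some none))).imp hR)))))))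

/-- The common part of `P0a`, `P1b`. -/
theorem df_AE (hD : Df (α := Option κ) (β := Unit) (fun a s => D (fun i => a (some i)) (a none) (s ())))
    (ι : κ → α) (g₁ g : β) (ν : α)
    {R : ZFSet.{u} → ZFSet.{u} → (α → Ordinal.{u}) → (β → ZFSet.{u}) → Prop}
    (hR : Df (β := Option (Option (Option (Option β)))) (fun a s => R (s (some none)) (s none) a
      (fun i => s (some (some (some (some i))))))) :
    Df (fun a s => ∃ X Y, D (fun i => a (ι i)) (val (s g₁) (a ν)) X ∧
      D (fun i => a (ι i)) (val (s g) (a ν)) Y ∧ ∀ d, d ∈ X → ∃ c, c ∈ Y ∧ R d c a s) :=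
  exS (P := fun X a s => ∃ Y, D (fun i => a (ι i)) (val (s g₁) (a ν)) X ∧
      D (fun i => a (ι i)) (val (s g) (a ν)) Y ∧ ∀ d, d ∈ X → ∃ c, c ∈ Y ∧ R d c a s)
    (exS (β := Option β) (P := fun Y a s => D (fun i => a (ι i)) (val (s (some g₁)) (a ν)) (s none) ∧
        D (fun i => a (ι i)) (val (s (some g)) (a ν)) Y ∧ ∀ d, d ∈ s none → ∃ c, c ∈ Y ∧
          R d c a (fun i => s (some i)))
      ((df_DV hD ι (some (some g₁)) ν (some none)).and
        ((df_DV hD ι (some (some g)) ν none).and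
          (allS (β := Option (Option β)) (P := fun d a s => d ∈ s (some none) → ∃ c, c ∈ s none ∧
              R d c a (fun i => s (some (some i))))
            ((memS none (some (some none))).imp
              (exS (β := Option (Option (Option β))) (P := fun c a s => c ∈ s (some none) ∧
                  R (s none) c a (fun i => s (some (some (some i)))))
                ((memS none (some (some none))).and hR)))))))

theorem df_P1a (hD : Df (α := Option κ) (β := Unit) (fun a s => D (fun i => a (some i)) (a none) (s ())))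
    (ι : κ → α) (o ν : α) (g₁ g : β) :
    Df (fun a s => P1a (a o) (D (fun i => a (ι i))) (val (s g₁)) (val (s g)) (a ν)) :=
  df_EA hD ι g₁ g ν (R := fun d c a s => Tl (a o) d c (val (s g₁)) (val (s g)) (a ν))
    (df_Tl o ν (some none) none (some (some (some (some g₁)))) (some (some (some (some g)))))

theorem df_P0a (hD : Df (α := Option κ) (β := Unit) (fun a s => D (fun i => a (some i)) (a none) (s ())))
    (ι : κ → α) (o ν : α) (g₁ g : β) :
    Df (fun a s => P0a (a o) (D (fun i => a (ι i))) (val (s g₁)) (val (s g)) (a ν)) :=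
  df_AE hD ι g₁ g ν (R := fun d c a s => Tn (a o) d c (val (s g₁)) (val (s g)) (a ν))
    (df_Tn o ν (some none) none (some (some (some (some g₁)))) (some (some (some (some g)))))

theorem df_P1b (hD : Df (α := Option κ) (β := Unit) (fun a s => D (fun i => a (some i)) (a none) (s ())))
    (ι : κ → α) (o ν : α) (g₁ g : β) :
    Df (fun a s => P1b (a o) (D (fun i => a (ι i))) (val (s g₁)) (val (s g)) (a ν)) :=
  df_AE hD ι g₁ g ν (R := fun d c a s => Tl (a o) d c (val (s g₁)) (val (s g)) (a ν))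
    (df_Tl o ν (some none) none (some (some (some (some g₁)))) (some (some (some (some g)))))

theorem df_P0b (hD : Df (α := Option κ) (β := Unit) (fun a s => D (fun i => a (some i)) (a none) (s ())))
    (ι : κ → α) (o ν : α) (g₁ g : β) :
    Df (fun a s => P0b (a o) (D (fun i => a (ι i))) (val (s g₁)) (val (s g)) (a ν)) :=
  df_EA hD ι g₁ g ν (R := fun d c a s => Tn (a o) d c (val (s g₁)) (val (s g)) (a ν))
    (df_Tn o ν (some none) none (some (some (some (some g₁)))) (some (some (some (some g)))))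

end

section

variable {o : Ordinal.{u}} {D : Ordinal.{u} → ZFSet.{u} → Prop}
  {f₁ f f₁' f' : Ordinal.{u} → Ordinal.{u}} {ν : Ordinal.{u}}

theorem Tl_congr {d c : ZFSet.{u}} (h1 : ∀ ξ ≤ ν, f₁ ξ = f₁' ξ) (h2 : ∀ ξ ≤ ν, f ξ = f' ξ)
    (h : Tl o d c f₁ f ν) : Tl o d c f₁' f' ν := by
  obtain ⟨ν₀, h3, h4⟩ := h
  refine ⟨ν₀, h3, fun ξ h5 h6 => ?_⟩
  rw [← h1 ξ h6.le, ← h2 ξ h6.le]
  exact h4 ξ h5 h6

theorem Tn_congr {d c : ZFSet.{u}} (h1 : ∀ ξ ≤ ν, f₁ ξ = f₁' ξ) (h2 : ∀ ξ ≤ ν, f ξ = f' ξ)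
    (h : Tn o d c f₁ f ν) : Tn o d c f₁' f' ν := by
  obtain ⟨ν₀, h3, h4⟩ := h
  refine ⟨ν₀, h3, fun ξ h5 h6 => ?_⟩
  rw [← h1 ξ h6.le, ← h2 ξ h6.le]
  exact h4 ξ h5 h6

theorem P1a_congr (h1 : ∀ ξ ≤ ν, f₁ ξ = f₁' ξ) (h2 : ∀ ξ ≤ ν, f ξ = f' ξ)
    (h : P1a o D f₁ f ν) : P1a o D f₁' f' ν := by
  obtain ⟨X, Y, h3, h4, d, h5, h6⟩ := h
  exact ⟨X, Y, h1 ν le_rfl ▸ h3, h2 ν le_rfl ▸ h4, d, h5, fun c hc => Tl_congr h1 h2 (h6 c hc)⟩

theorem P0a_congr (h1 : ∀ ξ ≤ ν, f₁ ξ = f₁' ξ) (h2 : ∀ ξ ≤ ν, f ξ = f' ξ)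
    (h : P0a o D f₁ f ν) : P0a o D f₁' f' ν := by
  obtain ⟨X, Y, h3, h4, h6⟩ := h
  refine ⟨X, Y, h1 ν le_rfl ▸ h3, h2 ν le_rfl ▸ h4, fun d hd => ?_⟩
  obtain ⟨c, hc, h7⟩ := h6 d hd
  exact ⟨c, hc, Tn_congr h1 h2 h7⟩

theorem P1b_congr (h1 : ∀ ξ ≤ ν, f₁ ξ = f₁' ξ) (h2 : ∀ ξ ≤ ν, f ξ = f' ξ)
    (h : P1b o D f₁ f ν) : P1b o D f₁' f' ν := by
  obtain ⟨X, Y, h3, h4, h6⟩ := h
  refine ⟨X, Y, h1 ν le_rfl ▸ h3, h2 ν le_rfl ▸ h4, fun d hd => ?_⟩
  obtain ⟨c, hc, h7⟩ := h6 d hd
  exact ⟨c, hc, Tl_congr h1 h2 h7⟩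

theorem P0b_congr (h1 : ∀ ξ ≤ ν, f₁ ξ = f₁' ξ) (h2 : ∀ ξ ≤ ν, f ξ = f' ξ)
    (h : P0b o D f₁ f ν) : P0b o D f₁' f' ν := by
  obtain ⟨X, Y, h3, h4, d, h5, h6⟩ := h
  exact ⟨X, Y, h1 ν le_rfl ▸ h3, h2 ν le_rfl ▸ h4, d, h5, fun c hc => Tn_congr h1 h2 (h6 c hc)⟩

end

theorem Ra_iff {w o ρ η : Ordinal.{u}} {D : Ordinal.{u} → ZFSet.{u} → Prop} {x : ZFSet.{u}} :
    Ra w o ρ D η x ↔ ∃ g₁ g : ZFSet.{u}, Nrm w ρ (val g₁) ∧ Nrm w η (val g) ∧
      ∀ ν, ν < w → Order.IsSuccLimit ν → (ν.toZFSet ∈ x → P1a o D (val g₁) (val g) ν) ∧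
        (ν.toZFSet ∉ x → P0a o D (val g₁) (val g) ν) := by
  constructor
  · rintro ⟨f₁, f, h1, h2, h3⟩
    obtain ⟨g₁, hg₁⟩ := exists_val f₁ w
    obtain ⟨g, hg⟩ := exists_val f w
    refine ⟨g₁, g, (nrm_congr hg₁).2 h1, (nrm_congr hg).2 h2, fun ν hν hl => ?_⟩
    have e1 : ∀ ξ ≤ ν, f₁ ξ = val g₁ ξ := fun ξ hξ => (hg₁ ξ (hξ.trans_lt hν)).symm
    have e2 : ∀ ξ ≤ ν, f ξ = val g ξ := fun ξ hξ => (hg ξ (hξ.trans_lt hν)).symm
    exact ⟨fun h => P1a_congr e1 e2 ((h3 ν hν hl).1 h), fun h => P0a_congr e1 e2 ((h3 ν hν hl).2 h)⟩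
  · rintro ⟨g₁, g, h1, h2, h3⟩
    exact ⟨val g₁, val g, h1, h2, h3⟩

theorem Rb_iff {w o ρ η : Ordinal.{u}} {D : Ordinal.{u} → ZFSet.{u} → Prop} {x : ZFSet.{u}} :
    Rb w o ρ D η x ↔ ∃ g₁ g : ZFSet.{u}, Nrm w ρ (val g₁) ∧ Nrm w η (val g) ∧
      ∀ ν, ν < w → Order.IsSuccLimit ν → (ν.toZFSet ∈ x → P1b o D (val g₁) (val g) ν) ∧
        (ν.toZFSet ∉ x → P0b o D (val g₁) (val g) ν) := by
  constructor
  · rintro ⟨f₁, f, h1, h2, h3⟩
    obtain ⟨g₁, hg₁⟩ := exists_val f₁ w
    obtain ⟨g, hg⟩ := exists_val f w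
    refine ⟨g₁, g, (nrm_congr hg₁).2 h1, (nrm_congr hg).2 h2, fun ν hν hl => ?_⟩
    have e1 : ∀ ξ ≤ ν, f₁ ξ = val g₁ ξ := fun ξ hξ => (hg₁ ξ (hξ.trans_lt hν)).symm
    have e2 : ∀ ξ ≤ ν, f ξ = val g ξ := fun ξ hξ => (hg ξ (hξ.trans_lt hν)).symm
    exact ⟨fun h => P1b_congr e1 e2 ((h3 ν hν hl).1 h), fun h => P0b_congr e1 e2 ((h3 ν hν hl).2 h)⟩
  · rintro ⟨g₁, g, h1, h2, h3⟩
    exact ⟨val g₁, val g, h1, h2, h3⟩

section

variable {α β κ : Type} {D : (κ → Ordinal.{u}) → Ordinal.{u} → ZFSet.{u} → Prop}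

/-- (A2) -/
theorem df_Ra (hD : Df (α := Option κ) (β := Unit) (fun a s => D (fun i => a (some i)) (a none) (s ())))
    (ι : κ → α) (w o ρ η : α) (x : β) :
    Df (fun a s => Ra (a w) (a o) (a ρ) (D (fun i => a (ι i))) (a η) (s x)) := by
  refine Df.congr ?_ (fun a s => Ra_iff.symm)
  refine exS (P := fun g₁ a s => ∃ g : ZFSet.{u}, Nrm (a w) (a ρ) (val g₁) ∧
    Nrm (a w) (a η) (val g) ∧ ∀ ν, ν < a w → Order.IsSuccLimit ν →
      (ν.toZFSet ∈ s x → P1a (a o) (D (fun i => a (ι i))) (val g₁) (val g) ν) ∧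
        (ν.toZFSet ∉ s x → P0a (a o) (D (fun i => a (ι i))) (val g₁) (val g) ν)) ?_
  refine exS (β := Option β) (P := fun g a s => Nrm (a w) (a ρ) (val (s none)) ∧
    Nrm (a w) (a η) (val g) ∧ ∀ ν, ν < a w → Order.IsSuccLimit ν →
      (ν.toZFSet ∈ s (some x) → P1a (a o) (D (fun i => a (ι i))) (val (s none)) (val g) ν) ∧
        (ν.toZFSet ∉ s (some x) → P0a (a o) (D (fun i => a (ι i))) (val (s none)) (val g) ν)) ?_
  refine (nrm w ρ (some none)).and ((nrm w η none).and ?_)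
  refine allO (β := Option (Option β)) (P := fun ν a s => ν < a w → Order.IsSuccLimit ν →
      (ν.toZFSet ∈ s (some (some x)) →
        P1a (a o) (D (fun i => a (ι i))) (val (s (some none))) (val (s none)) ν) ∧
      (ν.toZFSet ∉ s (some (some x)) →
        P0a (a o) (D (fun i => a (ι i))) (val (s (some none))) (val (s none)) ν)) ?_
  exact (ltO none (some w)).imp ((limO none).imp
    (((memO none (some (some x))).imp
      (df_P1a hD (fun i => some (ι i)) (some o) none (some none) none)).and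
    ((memO none (some (some x))).not.imp
      (df_P0a hD (fun i => some (ι i)) (some o) none (some none) none))))

theorem df_Rb (hD : Df (α := Option κ) (β := Unit) (fun a s => D (fun i => a (some i)) (a none) (s ())))
    (ι : κ → α) (w o ρ η : α) (x : β) :
    Df (fun a s => Rb (a w) (a o) (a ρ) (D (fun i => a (ι i))) (a η) (s x)) := by
  refine Df.congr ?_ (fun a s => Rb_iff.symm)
  refine exS (P := fun g₁ a s => ∃ g : ZFSet.{u}, Nrm (a w) (a ρ) (val g₁) ∧
    Nrm (a w) (a η) (val g) ∧ ∀ ν, ν < a w → Order.IsSuccLimit ν →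
      (ν.toZFSet ∈ s x → P1b (a o) (D (fun i => a (ι i))) (val g₁) (val g) ν) ∧
        (ν.toZFSet ∉ s x → P0b (a o) (D (fun i => a (ι i))) (val g₁) (val g) ν)) ?_
  refine exS (β := Option β) (P := fun g a s => Nrm (a w) (a ρ) (val (s none)) ∧
    Nrm (a w) (a η) (val g) ∧ ∀ ν, ν < a w → Order.IsSuccLimit ν →
      (ν.toZFSet ∈ s (some x) → P1b (a o) (D (fun i => a (ι i))) (val (s none)) (val g) ν) ∧
        (ν.toZFSet ∉ s (some x) → P0b (a o) (D (fun i => a (ι i))) (val (s none)) (val g) ν)) ?_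
  refine (nrm w ρ (some none)).and ((nrm w η none).and ?_)
  refine allO (β := Option (Option β)) (P := fun ν a s => ν < a w → Order.IsSuccLimit ν →
      (ν.toZFSet ∈ s (some (some x)) →
        P1b (a o) (D (fun i => a (ι i))) (val (s (some none))) (val (s none)) ν) ∧
      (ν.toZFSet ∉ s (some (some x)) →
        P0b (a o) (D (fun i => a (ι i))) (val (s (some none))) (val (s none)) ν)) ?_
  exact (ltO none (some w)).imp ((limO none).imp
    (((memO none (some (some x))).imp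
      (df_P1b hD (fun i => some (ι i)) (some o) none (some none) none)).and
    ((memO none (some (some x))).not.imp
      (df_P0b hD (fun i => some (ι i)) (some o) none (some none) none))))

end

end Pool.Agent.Helper56.GL
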