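import Pool.Agent.Helper62.GL.Sd
import Pool.Agent.Helper97.FP.Ps
import Pool.Agent.Helper56.MW.J3
import Pool.Agent.Helper56.MW.K

/-!
# Cofinal sequences from a definable well-order, and dominating functions under Martin's Maximum
-/

open FirstOrder FirstOrder.Language Ordinal Cardinal Set Helper23.Pcf

universe u v

namespace Pool.Agent.Helper56.GL

open Pool.Agent.Helper56.MW Pool.Agent.Helper97.FP Pool.Agent.Helper62.GL

/-- A strictly increasing cofinal sequence. -/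
theorem exists_seq {γ : Ordinal.{u}} (hc : γ.cof = ℵ₀) : ∃ f : ℕ → Ordinal.{u}, CofSeq γ f := by
  classical
  obtain ⟨ν, hν1, hν2⟩ := seq_cof' hc
  choose! k hk using hν2
  let f : ℕ → Ordinal.{u} := fun n => Nat.rec (ν 0) (fun n β => ν (k (max β (ν n)))) n
  have hf1 : ∀ n, f n < γ := by
    intro n
    cases n with
    | zero => exact hν1 0
    | succ n => exact hν1 _
  have hf2 : ∀ n, max (f n) (ν n) < f (n + 1) := fun n => hk _ (max_lt (hf1 n) (hν1 n))
  refine ⟨f, strictMono_nat_of_lt_succ fun n => (le_max_left _ _).trans_lt (hf2 n), hf1, ?_⟩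
  intro β hβ
  exact ⟨k β + 1, (hk β hβ).trans ((le_max_right _ _).trans_lt (hf2 _))⟩

theorem isGraph_range (f : ℕ → Ordinal.{u}) :
    IsGraph (ZFSet.range (fun n : ℕ => ZFSet.pair (n : Ordinal.{u}).toZFSet (f n).toZFSet)) f := by
  intro z
  rw [ZFSet.mem_range]
  constructor
  · rintro ⟨n, rfl⟩
    exact ⟨n, rfl⟩
  · rintro ⟨n, rfl⟩
    exact ⟨n, rfl⟩

theorem isGraph_unique {c : ZFSet.{u}} {f f' : ℕ → Ordinal.{u}} (h : IsGraph c f)
    (h' : IsGraph c f') : f = f' := by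
  funext n
  obtain ⟨m, hm⟩ := (h' _).1 ((h _).2 ⟨n, rfl⟩)
  obtain ⟨h1, h2⟩ := ZFSet.pair_injective hm
  have h3 : n = m := Nat.cast_injective (toZFSet_injective h1)
  subst h3
  exact toZFSet_injective h2

/-- (C1) -/
theorem exists_cofSeq (h : MM.{u}) (hw : HasDefWO.{u}) {γ : Ordinal.{u}} (hγ : γ < ω_ 2)
    (hc : γ.cof = ℵ₀) : ∃ c f, OrdDef ∅ c ∧ CofSeq γ f ∧ IsGraph c f := by
  classical
  have H' : ∀ x : ZFSet.{u}, x ⊆ (ω : Ordinal.{u}).toZFSet →
      ∃ Z, x ∈ Z ∧ OrdDef ∅ Z ∧ Sm (ω_ 1) Z := by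
    intro x hx
    obtain ⟨Z, h3, h4, h5⟩ := blurry_of_ordDef (ordDef_of_hasDefWO hw hx)
    exact ⟨Z, h5, h3, sm_of_card (by rw [Ordinal.card_omega]; exact h4)⟩
  obtain ⟨n, φ, hφ⟩ := exists_many h.aleph2_le H'
  obtain ⟨f, hf⟩ := exists_seq hc
  choose x hx1 hx2 using fun k => exists_ix hφ ((hf.lt k).trans hγ)
  obtain ⟨y, hy1, hy2⟩ := exists_dec x hx1
  refine ⟨_, f, ?_, hf, isGraph_range f⟩
  have hdf : Df (α := Fin 2) (β := Fin 2)
      (fun (a : Fin 2 → Ordinal.{u}) (s : Fin 2 → ZFSet.{u}) => ∀ z, z ∈ s 1 ↔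
        ∃ i, i < a 1 ∧ ∃ ν, z = ZFSet.pair i.toZFSet ν.toZFSet ∧
          ∃ x, Dec (a 1) (s 0) i x ∧ Ix (a 0) φ ν x) := by
    refine Df.allS (α := Fin 2) (β := Fin 2) (P := fun z a s => z ∈ s 1 ↔
        ∃ i, i < a 1 ∧ ∃ ν, z = ZFSet.pair i.toZFSet ν.toZFSet ∧
          ∃ x, Dec (a 1) (s 0) i x ∧ Ix (a 0) φ ν x) ?_
    refine (Df.memS none (some 1)).iff ?_
    refine Df.exO (α := Fin 2) (β := Option (Fin 2)) (P := fun i a s => i < a 1 ∧
          ∃ ν, s none = ZFSet.pair i.toZFSet ν.toZFSet ∧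
          ∃ x, Dec (a 1) (s (some 0)) i x ∧ Ix (a 0) φ ν x) ?_
    refine (Df.ltO none (some 1)).and ?_
    refine Df.exO (α := Option (Fin 2)) (β := Option (Fin 2))
      (P := fun ν a s => s none = ZFSet.pair (a none).toZFSet ν.toZFSet ∧
          ∃ x, Dec (a (some 1)) (s (some 0)) (a none) x ∧ Ix (a (some 0)) φ ν x) ?_
    refine (Df.eqPair none (some none) none).and ?_
    refine Df.exS (α := Option (Option (Fin 2))) (β := Option (Fin 2))
      (P := fun x a s => Dec (a (some (some 1))) (s (some 0)) (a (some none)) x ∧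
      Ix (a (some (some 0))) φ (a none) x) ?_
    exact (df_dec (some (some 1)) (some none) (some (some 0)) none).and
      (df_ix φ (some (some 0)) none none)
  refine OrdDef.comp (ordDef_of_hasDefWO hw hy1) hdf ![ω_ 1, ω] fun c => ?_
  have key : ∀ z, (∃ i, i < (ω : Ordinal.{u}) ∧ ∃ ν, z = ZFSet.pair i.toZFSet ν.toZFSet ∧
      ∃ x, Dec ω y i x ∧ Ix (ω_ 1) φ ν x) ↔
      ∃ k : ℕ, z = ZFSet.pair (k : Ordinal.{u}).toZFSet (f k).toZFSet := by
    intro z
    constructor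
    · rintro ⟨i, hi, ν, rfl, x', h1, h2⟩
      obtain ⟨k, rfl⟩ := Ordinal.lt_omega0.1 hi
      rw [h1.unique (hy2 k)] at h2
      exact ⟨k, by rw [h2.unique (hx2 k)]⟩
    · rintro ⟨k, rfl⟩
      exact ⟨k, Ordinal.natCast_lt_omega0 k, f k, rfl, x k, hy2 k, hx2 k⟩
  constructor
  · intro h1
    ext z
    exact ((h1 z).trans (key z)).trans (isGraph_range f z).symm
  · rintro rfl z
    exact (isGraph_range f z).trans (key z).symm

/-- σ-linked forcing notions preserve stationary subsets of `ω₁`. -/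
theorem preservesStat_of_linked {P : Type v} [Preorder P] (c : P → ℕ)
    (hc : ∀ p q, c p = c q → ∃ r, r ≤ p ∧ r ≤ q) : PreservesStat.{u} P := by
  classical
  intro S hS p N hN
  let R : ℕ → Ordinal.{u} → Ordinal.{u} → Prop := fun n α β => β < ω_ 1 ∧ ∃ r ≤ p, c r = n ∧
    α < β ∧ N r β ∧ ∀ r' ≤ r, ∀ β', α < β' → β' < β → ¬ N r' β'
  have huniq : ∀ n α β β', R n α β → R n α β' → ¬ β < β' := by
    rintro n α β β' ⟨-, r, -, hcr, h1, h2, -⟩ ⟨-, r', -, hcr', -, -, h6⟩ hlt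
    obtain ⟨t, ht1, ht2⟩ := hc r r' (hcr.trans hcr'.symm)
    exact h6 t ht2 β h1 hlt (hN.mono t r β ht1 h2)
  let b : ℕ → Ordinal.{u} → Ordinal.{u} := fun n α =>
    if h : ∃ β, R n α β then Classical.choose h else 0
  have hb1 : ∀ n α, b n α < ω_ 1 := by
    intro n α
    by_cases h : ∃ β, R n α β
    · have h1 : b n α = Classical.choose h := dif_pos h
      rw [h1]
      exact (Classical.choose_spec h).1
    · have h1 : b n α = 0 := dif_neg h
      rw [h1]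
      exact Ordinal.omega_pos 1
  have hb2 : ∀ n α β, R n α β → b n α = β := by
    intro n α β hR
    have h : ∃ β, R n α β := ⟨β, hR⟩
    have h1 : b n α = Classical.choose h := dif_pos h
    rw [h1]
    exact le_antisymm (not_lt.1 (huniq n α _ _ hR (Classical.choose_spec h)))
      (not_lt.1 (huniq n α _ _ (Classical.choose_spec h) hR))
  let f : List (ULift.{u} ℕ × Ordinal.{u}) → Ordinal.{u} := fun l =>
    match l with
    | [] => 0
    | x :: _ => b x.1.down x.2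
  have hord : (ℵ_ 1 : Cardinal.{u}).ord = ω_ 1 := Cardinal.ord_aleph 1
  have hclub := club_closure (κ := ℵ_ 1) Cardinal.isRegular_aleph_one
    Cardinal.aleph0_lt_aleph_one (I := ULift.{u} ℕ)
    (by
      rw [Cardinal.mk_uLift, Cardinal.mk_nat, Cardinal.lift_aleph0]
      exact Cardinal.aleph0_lt_aleph_one) f
    (by
      intro l _
      rw [hord]
      rcases l with _ | ⟨x, l⟩
      · exact Ordinal.omega_pos 1
      · exact hb1 _ _)
  rw [hord] at hclub
  obtain ⟨δ, hδS, hδC, hδ⟩ := hS _ hclub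
  have h0 : 0 < δ := hδC [] (by simp)
  have hcl : ∀ (n : ℕ) (α : Ordinal.{u}), α < δ → b n α < δ := by
    intro n α hα
    exact hδC [(⟨n⟩, α)] (by simpa using hα)
  obtain ⟨s, hs, hNs⟩ := hN.closed p le_rfl δ hδ h0
    (fun α hα r hr => by
      obtain ⟨s0, hs0, β0, hβ0, hαβ0, hN0⟩ := hN.unbounded r hr α (hα.trans hδ)
      have hne : ({β | α < β ∧ ∃ s ≤ r, N s β} : Set Ordinal.{u}).Nonempty :=
        ⟨β0, hαβ0, s0, hs0, hN0⟩
      obtain ⟨β, ⟨hαβ, s, hs, hNs⟩, hmin⟩ := WellFounded.has_min Ordinal.lt_wf _ hne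
      have hβ : β < ω_ 1 := lt_of_le_of_lt (not_lt.1 (hmin β0 ⟨hαβ0, s0, hs0, hN0⟩)) hβ0
      have hR : R (c s) α β := ⟨hβ, s, hs.trans hr, rfl, hαβ, hNs, fun r' hr' β' h1 h2 h3 =>
        hmin β' ⟨h1, r', hr'.trans hs, h3⟩ h2⟩
      refine ⟨s, hs, β, ?_, hαβ, hNs⟩
      rw [← hb2 _ _ _ hR]
      exact hcl _ _ hα) p le_rfl
  exact ⟨s, hs, δ, hδS, hδ, hNs⟩

/-- Hechler forcing. -/
structure Hec : Type where
  s : List ℕ
  g : ℕ → ℕ

instance : Preorder Hec where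
  le q p := p.s <+: q.s ∧ (∀ n, p.g n ≤ q.g n) ∧
    ∀ n k, p.s.length ≤ n → q.s[n]? = some k → p.g n ≤ k
  le_refl p := ⟨⟨[], by simp⟩, fun _ => le_rfl, fun n k h1 h2 => by
    rw [List.getElem?_eq_none h1] at h2
    simp at h2⟩
  le_trans a b c h1 h2 := by
    refine ⟨h2.1.trans h1.1, fun n => (h2.2.1 n).trans (h1.2.1 n), fun n k hn hk => ?_⟩
    by_cases hb : b.s.length ≤ n
    · exact (h2.2.1 n).trans (h1.2.2 n k hb hk)
    · refine h2.2.2 n k hn ?_
      obtain ⟨t, ht⟩ := h1.1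
      rw [← ht, List.getElem?_append_left (not_le.1 hb)] at hk
      exact hk

theorem Hec.le_def {q p : Hec} : q ≤ p ↔ p.s <+: q.s ∧ (∀ n, p.g n ≤ q.g n) ∧
    ∀ n k, p.s.length ≤ n → q.s[n]? = some k → p.g n ≤ k := Iff.rfl

instance : Nonempty Hec := ⟨⟨[], fun _ => 0⟩⟩

theorem Hec.get {p q : Hec} (h : q ≤ p) {n k : ℕ} (hk : p.s[n]? = some k) :
    q.s[n]? = some k := by
  obtain ⟨t, ht⟩ := (Hec.le_def.1 h).1
  rw [← ht, List.getElem?_append_left]
  · exact hk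
  · by_contra hlt
    rw [List.getElem?_eq_none (not_lt.1 hlt)] at hk
    simp at hk

/-- Conditions with a given first coordinate can be lengthened. -/
theorem Hec.lengthen (p : Hec) (m : ℕ) : ∃ q ≤ p, m ≤ q.s.length := by
  induction m with
  | zero => exact ⟨p, le_rfl, Nat.zero_le _⟩
  | succ m ih =>
    obtain ⟨q, hq, hm⟩ := ih
    refine ⟨⟨q.s ++ [q.g q.s.length], q.g⟩, le_trans (Hec.le_def.2 ⟨⟨_, rfl⟩, fun _ => le_rfl,
      fun n k hn hk => ?_⟩) hq, ?_⟩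
    · simp only at hk
      rw [List.getElem?_append_right hn] at hk
      by_cases h1 : n - q.s.length = 0
      · rw [h1] at hk
        simp only [List.getElem?_cons_zero, Option.some.injEq] at hk
        have h2 : n = q.s.length := le_antisymm (Nat.sub_eq_zero_iff_le.1 h1) hn
        rw [h2, hk]
      · rw [List.getElem?_eq_none (by simp; omega)] at hk
        simp at hk
    · simp only [List.length_append, List.length_cons, List.length_nil]
      omega

/-- Martin's Maximum: `ℵ₁` functions are dominated by one. -/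
theorem exists_dom (h : MM.{u}) (F : Ordinal.{u} → ℕ → ℕ) :
    ∃ d : ℕ → ℕ, ∀ ξ < ω_ 1, ∃ m, ∀ n ≥ m, F ξ n ≤ d n := by
  classical
  obtain ⟨code, hcode⟩ := exists_injective_nat (List ℕ)
  have hP : PreservesStat.{u} Hec := by
    refine preservesStat_of_linked (fun p => code p.s) ?_
    rintro ⟨s, g⟩ ⟨s', g'⟩ hss
    have h1 : s = s' := hcode hss
    subst h1
    refine ⟨⟨s, fun n => max (g n) (g' n)⟩, Hec.le_def.2 ⟨⟨[], by simp⟩,
      fun n => le_max_left _ _, fun n k h1 h2 => ?_⟩, Hec.le_def.2 ⟨⟨[], by simp⟩,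
      fun n => le_max_right _ _, fun n k h1 h2 => ?_⟩⟩
    · simp only at h1 h2
      rw [List.getElem?_eq_none h1] at h2
      simp at h2
    · simp only at h1 h2
      rw [List.getElem?_eq_none h1] at h2
      simp at h2
  obtain ⟨G, hG⟩ := h.small Hec hP
    (fun i => {p | (∀ n, F i n ≤ p.g n) ∧ ∀ m : ℕ, i = m → m ≤ p.s.length}) (by
      intro i _ p
      have hm : ∃ m0 : ℕ, ∀ m : ℕ, i = m → m ≤ m0 := by
        by_cases hi : ∃ m : ℕ, i = m
        · obtain ⟨m, rfl⟩ := hi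
          exact ⟨m, fun m' hm' => (Nat.cast_injective hm').ge⟩
        · exact ⟨0, fun m hm => absurd ⟨m, hm⟩ hi⟩
      obtain ⟨m0, hm0⟩ := hm
      obtain ⟨q, hq, hqm⟩ := p.lengthen m0
      refine ⟨⟨q.s, fun n => max (q.g n) (F i n)⟩, le_trans (Hec.le_def.2 ⟨⟨[], by simp⟩,
        fun n => le_max_left _ _, fun n k h1 h2 => ?_⟩) hq, fun n => le_max_right _ _,
        fun m hm => (hm0 m hm).trans hqm⟩
      simp only at h1 h2
      rw [List.getElem?_eq_none h1] at h2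
      simp at h2)
  have hlong : ∀ n : ℕ, ∃ p ∈ G, ∃ k, p.s[n]? = some k := by
    intro n
    obtain ⟨p, hp, -, hlen⟩ := hG.meets ((n + 1 : ℕ) : Ordinal.{u})
      ((Ordinal.natCast_lt_omega0 _).trans_le (Ordinal.omega0_le_omega 1))
    have h1 : n < p.s.length := hlen (n + 1) rfl
    exact ⟨p, hp, p.s[n], List.getElem?_eq_getElem h1⟩
  choose p hp d hd using hlong
  refine ⟨d, fun ξ hξ => ?_⟩
  obtain ⟨q, hq, hqF, -⟩ := hG.meets ξ hξ
  refine ⟨q.s.length, fun n hn => ?_⟩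
  obtain ⟨r, -, hr1, hr2⟩ := hG.dir (p n) (hp n) q hq
  exact (hqF n).trans ((Hec.le_def.1 hr2).2.2 n (d n) hn (Hec.get hr1 (hd n)))

/-- (C2) -/
theorem bdd_of_few (h : MM.{u}) {γ : Ordinal.{u}} (hc : γ.cof = ℵ₀) {X : ZFSet.{u}}
    (hX : Seqs γ X) (hcard : X.card ≤ ℵ_ 1) : BddAb γ X := by
  classical
  obtain ⟨ν, hν⟩ := exists_seq hc
  obtain ⟨e, he⟩ := (sm_of_card (w := ω_ 1) (Z := X) (by
    rw [Ordinal.card_omega]; exact hcard)).exists_fun
  have h1 : ∀ ξ : Ordinal.{u}, ∃ F : ℕ → ℕ, ∀ f, e ξ ∈ X → IsGraph (e ξ) f → ∀ n, f n ≤ ν (F n) := by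
    intro ξ
    by_cases hξ : e ξ ∈ X
    · obtain ⟨f, hf, hg⟩ := hX.seq _ hξ
      choose F hF using fun n => hν.cof (f n) (hf.lt n)
      refine ⟨F, fun f' _ hf' n => ?_⟩
      rw [isGraph_unique hf' hg]
      exact (hF n).le
    · exact ⟨fun _ => 0, fun f' h2 => absurd h2 hξ⟩
  choose F hF using h1
  obtain ⟨d, hd⟩ := exists_dom h F
  refine ⟨fun n => ν (d n), fun n => hν.lt _, fun c hcX f hf => ?_⟩
  obtain ⟨ξ, hξ, rfl⟩ := he c hcX
  obtain ⟨m, hm⟩ := hd ξ hξ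
  exact ⟨m, fun n hn => (hF ξ f hcX hf n).trans (hν.mono.monotone (hm n hn))⟩

end Pool.Agent.Helper56.GL
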