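import Pool.Agent.Helper62.GL.Ud
import Pool.Agent.Helper56.GL.A
import Pool.Agent.Helper56.MW.E8
import Pool.Agent.Helper56.MW.G1

/-!
# Definability of the family of maps obtained from countable ordinals
-/

open FirstOrder FirstOrder.Language Ordinal Cardinal Set Helper23.Pcf

universe u v

namespace Pool.Agent.Helper56.GL

open Pool.Agent.Helper56.MW (LSet DefBy val ordDef_of_df OrdDef Df)
open Pool.Agent.Helper56.MW.Df (exO allO exS allS memO memS ltO leO eqO compVal statIn relabel
  eqPair)
open Pool.Agent.Helper97.FP (Enum)
open Pool.Agent.Helper62.GL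

section

variable {α β : Type}

theorem df_eqVV (g g' : β) (ξ ξ' : α) :
    Df.{u} (fun a s => val (s g) (a ξ) = val (s g') (a ξ')) :=
  compVal (P := fun v a s => v = val (s g') (a ξ')) g ξ
    (compVal (α := Option α) (P := fun v' a _ => a none = v') g' (some ξ')
      (eqO (some none) none))

theorem df_eqVO (g : β) (ξ ν : α) : Df.{u} (fun a s => val (s g) (a ξ) = a ν) :=
  compVal (P := fun v a _ => v = a ν) g ξ (eqO none (some ν))

theorem df_Enum (w η : α) (f : β) : Df.{u} (fun a s => Enum (a w) (a η) (val (s f))) :=
  (df_bdd w η f).and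
    (allO (P := fun ν a s => ν < a η → ∃ ξ, ξ < a w ∧ val (s f) ξ = ν)
      ((ltO none (some η)).imp
        (exO (α := Option α) (P := fun ξ a s => ξ < a (some w) ∧ val (s f) ξ = a none)
          ((ltO none (some (some w))).and (df_eqVO f none (some none))))))

theorem df_Enu (ξ δ : α) (f g : β) :
    Df.{u} (fun a s => Enu (val (s f)) (a ξ) (a δ) (val (s g))) := by
  refine Df.and ?_ (Df.and ?_ ?_)
  · exact allO (P := fun i a s => i < a δ → ∃ ζ, ζ < a ξ ∧ val (s f) ζ = val (s g) i)
      ((ltO none (some δ)).imp
        (exO (α := Option α) (P := fun ζ a s => ζ < a (some ξ) ∧ val (s f) ζ = val (s g) (a none))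
          ((ltO none (some (some ξ))).and (df_eqVV f g none (some none)))))
  · exact allO (P := fun ζ a s => ζ < a ξ → ∃ i, i < a δ ∧ val (s g) i = val (s f) ζ)
      ((ltO none (some ξ)).imp
        (exO (α := Option α) (P := fun i a s => i < a (some δ) ∧ val (s g) i = val (s f) (a none))
          ((ltO none (some (some δ))).and (df_eqVV g f none (some none)))))
  · exact allO (P := fun i a s => i < a δ → ∀ j, j < i → val (s g) j < val (s g) i)
      ((ltO none (some δ)).imp
        (allO (α := Option α) (P := fun j a s => j < a none → val (s g) j < val (s g) (a none))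
          ((ltO none (some none)).imp (df_ltVV g g none (some none)))))

theorem df_Gr (o : α) (e : β) : Df.{u} (fun a s => Gr (a o) (s e)) :=
  allS (P := fun z a s => z ∈ s e ↔ ∃ n, n < a o ∧
      z = ZFSet.pair n.toZFSet (val (s e) n).toZFSet)
    ((memS none (some e)).iff
      (exO (P := fun n a s => n < a o ∧
          s none = ZFSet.pair n.toZFSet (val (s (some e)) n).toZFSet)
        ((ltO none (some o)).and
          (compVal (P := fun v a s => s none = ZFSet.pair (a none).toZFSet v.toZFSet) (some e) none
            (eqPair none (some none) none)))))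

variable {κ : Type} {D : (κ → Ordinal.{u}) → Ordinal.{u} → ZFSet.{u} → Prop}

theorem df_Dn (hD : Df (α := Option κ) (β := Unit) (fun a s => D (fun i => a (some i)) (a none) (s ())))
    (ι : κ → α) (ξ : α) (f : β) :
    Df (fun a s => Dn (D (fun i => a (ι i))) (val (s f)) (a ξ)) :=
  exO (P := fun δ a s => ∃ g : ZFSet.{u}, Enu (val (s f)) (a ξ) δ (val g) ∧
      ∃ Z, D (fun i => a (ι i)) δ Z)
    (exS (α := Option α) (P := fun g a s => Enu (val (s f)) (a (some ξ)) (a none) (val g) ∧
        ∃ Z, D (fun i => a (some (ι i))) (a none) Z)
      ((df_Enu (some ξ) none (some f) none).and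
        (exS (β := Option β) (P := fun Z a _ => D (fun i => a (some (ι i))) (a none) Z)
          (df_D hD (fun i => some (ι i)) none none))))

theorem df_Ev (hD : Df (α := Option κ) (β := Unit) (fun a s => D (fun i => a (some i)) (a none) (s ())))
    (ι : κ → α) (o ξ : α) (f e : β) :
    Df (fun a s => Ev (a o) (D (fun i => a (ι i))) (val (s f)) (a ξ) (s e)) :=
  exO (P := fun δ a s => ∃ g : ZFSet.{u}, Enu (val (s f)) (a ξ) δ (val g) ∧
      ∃ Z, D (fun i => a (ι i)) δ Z ∧ ∃ c, c ∈ Z ∧ ∃ m, m < a o ∧ ∀ n, n < a o → m ≤ n →
        val (s e) n ≤ val g (val c n))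
    (exS (α := Option α) (P := fun g a s => Enu (val (s f)) (a (some ξ)) (a none) (val g) ∧
        ∃ Z, D (fun i => a (some (ι i))) (a none) Z ∧ ∃ c, c ∈ Z ∧ ∃ m, m < a (some o) ∧
          ∀ n, n < a (some o) → m ≤ n → val (s e) n ≤ val g (val c n))
      ((df_Enu (some ξ) none (some f) none).and
        (exS (β := Option β) (P := fun Z a s => D (fun i => a (some (ι i))) (a none) Z ∧
            ∃ c, c ∈ Z ∧ ∃ m, m < a (some o) ∧ ∀ n, n < a (some o) → m ≤ n →
              val (s (some e)) n ≤ val (s none) (val c n))
          ((df_D hD (fun i => some (ι i)) none none).and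
            (exS (β := Option (Option β)) (P := fun c a s => c ∈ s none ∧ ∃ m, m < a (some o) ∧
                ∀ n, n < a (some o) → m ≤ n →
                  val (s (some (some e))) n ≤ val (s (some none)) (val c n))
              ((memS none (some none)).and
                (exO (α := Option α) (β := Option (Option (Option β)))
                  (P := fun m a s => m < a (some o) ∧ ∀ n, n < a (some o) → m ≤ n →
                    val (s (some (some (some e)))) n ≤ val (s (some (some none)))
                      (val (s none) n))
                  ((ltO none (some (some o))).and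
                    (allO (α := Option (Option α)) (P := fun n a s => n < a (some (some o)) →
                        a none ≤ n → val (s (some (some (some e)))) n ≤
                          val (s (some (some none))) (val (s none) n))
                      ((ltO none (some (some (some o)))).imp ((leO (some none) none).imp
                        (compVal (P := fun v a s => val (s (some (some (some e)))) (a none) ≤
                            val (s (some (some none))) v) none none
                          (df_leVV (some (some (some e))) (some (some none)) (some none)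
                            none)))))))))))))

theorem df_Xm (hD : Df (α := Option κ) (β := Unit) (fun a s => D (fun i => a (some i)) (a none) (s ())))
    (ι : κ → α) (w o η : α) (e : β) :
    Df (fun a s => Xm (a w) (a o) (a η) (D (fun i => a (ι i))) (s e)) :=
  (df_Gr o e).and ((df_Cs o η e).and
    (exS (P := fun f a s => Enum (a w) (a η) (val f) ∧
        ¬ StatIn {ξ | Dn (D (fun i => a (ι i))) (val f) ξ ∧
          ¬ Ev (a o) (D (fun i => a (ι i))) (val f) ξ (s e)} (a w))
      ((df_Enum w η none).and
        (statIn (β := Option β) (P := fun ξ a s => Dn (D (fun i => a (ι i))) (val (s none)) ξ ∧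
            ¬ Ev (a o) (D (fun i => a (ι i))) (val (s none)) ξ (s (some e))) w
          ((df_Dn hD (fun i => some (ι i)) none none).and
            (df_Ev hD (fun i => some (ι i)) (some o) none none (some e)).not)).not)))

/-- (D1) -/
theorem df_isX (hD : Df (α := Option κ) (β := Unit) (fun a s => D (fun i => a (some i)) (a none) (s ())))
    (ι : κ → α) (w o η : α) (X : β) :
    Df (fun a s => IsX (a w) (a o) (a η) (D (fun i => a (ι i))) (s X)) :=
  allS (P := fun e a s => e ∈ s X ↔ Xm (a w) (a o) (a η) (D (fun i => a (ι i))) e)
    ((memS none (some X)).iff (df_Xm hD ι w o η none))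

end

/-- (D2) -/
theorem ordDef_isX {κ : Type} [Finite κ]
    {D : (κ → Ordinal.{u}) → Ordinal.{u} → ZFSet.{u} → Prop}
    (hD : Df (α := Option κ) (β := Unit) (fun a s => D (fun i => a (some i)) (a none) (s ())))
    (c : κ → Ordinal.{u}) {η : Ordinal.{u}} {X : ZFSet.{u}} (hX : IsX (ω_ 1) ω η (D c) X) :
    OrdDef ∅ X := by
  refine ordDef_of_df (df_isX (α := Fin 3 ⊕ κ) (β := Unit) hD Sum.inr (Sum.inl 0) (Sum.inl 1)
    (Sum.inl 2) ()) (Sum.elim ![ω_ 1, ω, η] c) X fun y => ?_
  constructor
  · intro hy
    ext e
    exact (hy e).trans (hX e).symm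
  · rintro rfl
    exact hX

end Pool.Agent.Helper56.GL
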