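import Pool.Agent.Helper62.GL.Sr

/-!
# Reflection of projectively stationary sets of countable subsets of a type
-/

open FirstOrder FirstOrder.Language Ordinal Cardinal Set Helper23.Pcf

universe u v

namespace Pool.Agent.Helper56.GL

open Pool.Agent.Helper56.MW (aleph0_lt_cof_omega1 MM PreservesStat ForcesClub GenericFor MM.small)
open Pool.Agent.Helper97.FP (iio_countable seq_of_limit)
open Pool.Agent.Helper97.FP.Cond (stat_limits)
open Pool.Agent.Helper62.GL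

/-! ### The forcing notion -/

/-- `f` is a condition of length `δ`: a sequence of elements of `Λ` such that the sets
`{f ζ | ζ < ξ}` for limit `ξ ≤ δ` belong to `X`. -/
structure IsCnd {Λ : Type u} (X : Set Λ → Prop) (z : Λ) (δ : Ordinal.{u})
    (f : Ordinal.{u} → Λ) : Prop where
  lt : δ < ω_ 1
  zero : ∀ ξ, δ ≤ ξ → f ξ = z
  pat : ∀ ξ ≤ δ, Order.IsSuccLimit ξ → X (f '' Iio ξ)

/-- The forcing notion. -/
def Cnd {Λ : Type u} (X : Set Λ → Prop) (z : Λ) : Type (u + 1) :=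
  {x : Ordinal.{u} × (Ordinal.{u} → Λ) // IsCnd X z x.1 x.2}

namespace Cnd

variable {Λ : Type u} {X : Set Λ → Prop} {z : Λ} {e : Ordinal.{u} → Λ}

/-- The length. -/
def len (p : Cnd X z) : Ordinal.{u} := p.1.1

/-- The sequence. -/
def fn (p : Cnd X z) : Ordinal.{u} → Λ := p.1.2

/-- The range. -/
def ran (p : Cnd X z) : Set Λ := p.fn '' Iio p.len

theorem isCnd (p : Cnd X z) : IsCnd X z p.len p.fn := p.2

instance : Preorder (Cnd X z) where
  le q p := p.len ≤ q.len ∧ ∀ ξ < p.len, q.fn ξ = p.fn ξ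
  le_refl p := ⟨le_rfl, fun _ _ => rfl⟩
  le_trans a b c h1 h2 :=
    ⟨h2.1.trans h1.1, fun ξ hξ => (h1.2 ξ (hξ.trans_le h2.1)).trans (h2.2 ξ hξ)⟩

theorem le_def {q p : Cnd X z} : q ≤ p ↔ p.len ≤ q.len ∧ ∀ ξ < p.len, q.fn ξ = p.fn ξ :=
  Iff.rfl

/-- The condition obtained by a list of steps (the last step is the head). -/
def run (p₀ : Cnd X z) (F : Cnd X z → Λ → Cnd X z) : List Λ → Cnd X z
  | [] => p₀
  | β :: t => F (run p₀ F t) β

instance : Nonempty (Cnd X z) := by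
  refine ⟨⟨(0, fun _ => z), ⟨Ordinal.omega_pos 1, fun _ _ => rfl, ?_⟩⟩⟩
  intro ξ hξ hlim
  have h0 : ξ = 0 := le_antisymm hξ bot_le
  subst h0
  exact absurd hlim Order.not_isSuccLimit_bot

instance small : Small.{u} (Cnd X z) := by
  let F : Cnd X z → Iio (ω_ 1 : Ordinal.{u}) × (Iio (ω_ 1 : Ordinal.{u}) → Λ) :=
    fun p => (⟨p.len, p.isCnd.lt⟩, fun ξ => p.fn ξ.1)
  refine small_of_injective (f := F) ?_
  intro p q h
  have h1 : p.len = q.len := congrArg (fun x => x.1.1) h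
  have h2 : ∀ ξ : Ordinal.{u}, ξ < ω_ 1 → p.fn ξ = q.fn ξ := by
    intro ξ hξ
    exact congrArg (fun x => x.2 ⟨ξ, hξ⟩) h
  refine Subtype.ext (Prod.ext h1 (funext fun ξ => ?_))
  rcases lt_or_ge ξ (ω_ 1) with h3 | h3
  · exact h2 ξ h3
  · have h4 : p.fn ξ = z := p.isCnd.zero ξ (p.isCnd.lt.le.trans h3)
    have h5 : q.fn ξ = z := q.isCnd.zero ξ (q.isCnd.lt.le.trans h3)
    exact h4.trans h5.symm

theorem ran_countable (p : Cnd X z) : p.ran.Countable :=
  (iio_countable p.isCnd.lt).image _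

theorem ran_mono {p q : Cnd X z} (h : q ≤ p) : p.ran ⊆ q.ran := by
  rintro _ ⟨ξ, hξ, rfl⟩
  exact ⟨ξ, lt_of_lt_of_le hξ (le_def.1 h).1, (le_def.1 h).2 ξ hξ⟩

/-- Extension by one value. -/
theorem exists_succ (p : Cnd X z) (β : Λ) :
    ∃ q ≤ p, q.len = p.len + 1 ∧ q.fn p.len = β := by
  classical
  have hlim : Order.IsSuccLimit (ω_ 1 : Ordinal.{u}) :=
    Ordinal.one_lt_cof_iff.1 (one_lt_aleph0.trans aleph0_lt_cof_omega1)
  have hc : IsCnd X z (p.len + 1) (fun ξ => if ξ = p.len then β else p.fn ξ) := by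
    refine ⟨hlim.add_one_lt p.isCnd.lt, ?_, ?_⟩
    · intro ξ hξ
      have h1 : p.len < ξ := Order.add_one_le_iff.1 hξ
      simp only [if_neg h1.ne']
      exact p.isCnd.zero ξ h1.le
    · intro ξ hξ hl
      have h1 : ξ ≤ p.len := by
        rcases hξ.lt_or_eq with h | h
        · exact Order.lt_add_one_iff.1 h
        · exfalso
          rw [h, ← Order.succ_eq_add_one] at hl
          exact Order.not_isSuccLimit_succ _ hl
      have h2 : (fun ζ => if ζ = p.len then β else p.fn ζ) '' Iio ξ = p.fn '' Iio ξ := by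
        refine Set.image_congr fun ζ hζ => ?_
        exact if_neg (ne_of_lt (lt_of_lt_of_le hζ h1))
      rw [h2]
      exact p.isCnd.pat ξ h1 hl
  exact ⟨(⟨(p.len + 1, fun ξ => if ξ = p.len then β else p.fn ξ), hc⟩ : Cnd X z),
    le_def.2 ⟨(Order.lt_add_one_iff.2 le_rfl).le, fun ξ hξ => if_neg (ne_of_lt hξ)⟩, rfl,
    if_pos rfl⟩

/-- The union of a decreasing sequence of conditions. -/
theorem glue {ξ : Ordinal.{u}} (hξ : ξ < ω_ 1) (q : ℕ → Cnd X z)
    (hq : ∀ n, q (n + 1) ≤ q n) (h1 : ∀ n, (q n).len < ξ) (h2 : ∀ ζ < ξ, ∃ n, ζ < (q n).len)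
    (hT : X (⋃ n, (q n).ran)) : ∃ r : Cnd X z, r.len = ξ ∧ ∀ n, r ≤ q n := by
  classical
  have hmono : ∀ m n, m ≤ n → q n ≤ q m := by
    intro m n hmn
    induction n, hmn using Nat.le_induction with
    | base => exact le_rfl
    | succ n _ ih => exact (hq n).trans ih
  have hval : ∀ m n ζ, ζ < (q m).len → ζ < (q n).len → (q m).fn ζ = (q n).fn ζ := by
    intro m n ζ hm hn
    rcases le_total m n with h | h
    · exact ((le_def.1 (hmono m n h)).2 ζ hm).symm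
    · exact (le_def.1 (hmono n m h)).2 ζ hn
  let f : Ordinal.{u} → Λ := fun ζ =>
    if h : ∃ n, ζ < (q n).len then (q (Nat.find h)).fn ζ else z
  have hf : ∀ n ζ, ζ < (q n).len → f ζ = (q n).fn ζ := by
    intro n ζ hn
    have h : ∃ n, ζ < (q n).len := ⟨n, hn⟩
    have h3 : f ζ = (q (Nat.find h)).fn ζ := dif_pos h
    rw [h3]
    exact hval _ _ ζ (Nat.find_spec h) hn
  have him : ∀ n ζ, ζ ≤ (q n).len → f '' Iio ζ = (q n).fn '' Iio ζ := by
    intro n ζ hn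
    refine Set.image_congr fun z hz => ?_
    exact hf n z (lt_of_lt_of_le hz hn)
  have hc : IsCnd X z ξ f := by
    refine ⟨hξ, ?_, ?_⟩
    · intro ζ hζ
      have h : ¬ ∃ n, ζ < (q n).len := by
        rintro ⟨n, hn⟩
        exact absurd (hn.trans (h1 n)) (not_lt.2 hζ)
      exact dif_neg h
    · intro ζ hζ hl
      rcases hζ.lt_or_eq with h | h
      · obtain ⟨n, hn⟩ := h2 ζ h
        rw [him n ζ hn.le]
        exact (q n).isCnd.pat ζ hn.le hl
      · subst h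
        have h3 : f '' Iio ζ = ⋃ n, (q n).ran := by
          ext y
          constructor
          · rintro ⟨z, hz, rfl⟩
            obtain ⟨n, hn⟩ := h2 z hz
            exact Set.mem_iUnion.2 ⟨n, z, hn, (hf n z hn).symm⟩
          · intro hy
            obtain ⟨n, z, hz, rfl⟩ := Set.mem_iUnion.1 hy
            exact ⟨z, lt_trans hz (h1 n), hf n z hz⟩
        rw [h3]
        exact hT
  exact ⟨(⟨(ξ, f), hc⟩ : Cnd X z), rfl, fun n => le_def.2 ⟨(h1 n).le, fun ζ hζ => hf n ζ hζ⟩⟩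

/-! ### Density -/

/-- Runs along an enumeration of a closed set. -/
theorem run_enum {K : List Λ → Set Λ} {N : Set Λ} (hN : ClsT K N)
    (p₀ : Cnd X z) (F : Cnd X z → Λ → Cnd X z)
    (hF : ∀ p β, F p β ≤ p) (hF1 : ∀ p β, β ∈ (F p β).ran)
    (hK : ∀ s, (run p₀ F s).ran ⊆ K s) (d : ℕ → Λ) (hd : range d = N) :
    ∃ q : ℕ → Cnd X z, q 0 = p₀ ∧ (∀ n, q (n + 1) = F (q n) (d n)) ∧ (∀ n, q (n + 1) ≤ q n) ∧
      ⋃ n, (q n).ran = N ∧ ∀ n, ∃ s, (∀ y ∈ s, y ∈ N) ∧ q n = run p₀ F s := by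
  have hdN : ∀ n, d n ∈ N := fun n => hd ▸ ⟨n, rfl⟩
  let L : ℕ → List Λ := fun n => Nat.rec [] (fun k l => d k :: l) n
  have hL0 : L 0 = [] := rfl
  have hLs : ∀ n, L (n + 1) = d n :: L n := fun n => rfl
  have hLN : ∀ n, ∀ y ∈ L n, y ∈ N := by
    intro n
    induction n with
    | zero =>
      intro y hy
      rw [hL0] at hy
      exact absurd hy (by simp)
    | succ n ih =>
      intro y hy
      rw [hLs] at hy
      rcases List.mem_cons.1 hy with h | h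
      · rw [h]
        exact hdN n
      · exact ih y h
  refine ⟨fun n => run p₀ F (L n), rfl, fun n => rfl, fun n => hF _ _, ?_, fun n =>
    ⟨L n, hLN n, rfl⟩⟩
  apply Set.Subset.antisymm
  · refine Set.iUnion_subset fun n => ?_
    exact (hK (L n)).trans (hN (L n) (hLN n))
  · intro y hy
    obtain ⟨n, rfl⟩ : y ∈ range d := hd ▸ hy
    exact Set.mem_iUnion.2 ⟨n + 1, hF1 _ (d n)⟩

/-- Density, for the limit step. -/
theorem dens_limit (hX : PStatT e X) {ξ : Ordinal.{u}} (hξ : ξ < ω_ 1)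
    (hlim : Order.IsSuccLimit ξ)
    (ih : ∀ ζ < ξ, ∀ p : Cnd X z, p.len < ζ → ∀ β, ∃ q ≤ p, q.len = ζ ∧ q.fn p.len = β)
    (p : Cnd X z) (hp : p.len < ξ) (β : Λ) :
    ∃ q ≤ p, q.len = ξ ∧ q.fn p.len = β := by
  classical
  obtain ⟨x, hx1, hx2⟩ := seq_of_limit hξ hlim
  have hstep : ∀ (r : Cnd X z) (ν : Λ), ∃ q ≤ r, ν ∈ q.ran ∧
      (r.len < ξ → q.len < ξ ∧ ∀ n, (∀ m < n, x m < r.len) → r.len ≤ x n → x n < q.len) := by
    intro r ν
    by_cases hr : r.len < ξ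
    · have hex : ∃ n, r.len ≤ x n := by
        obtain ⟨n, hn⟩ := hx2 _ hr
        exact ⟨n, hn.le⟩
      have hl1 : x (Nat.find hex) + 1 < ξ := hlim.add_one_lt (hx1 _)
      have hl2 : r.len < x (Nat.find hex) + 1 := Order.lt_add_one_iff.2 (Nat.find_spec hex)
      obtain ⟨q, hq1, hq2, hq3⟩ := ih _ hl1 r hl2 ν
      refine ⟨q, hq1, ?_, ?_⟩
      · refine ⟨r.len, ?_, ?_⟩
        · show r.len < q.len
          rw [hq2]
          exact hl2
        · rw [hq3]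
      · intro _
        refine ⟨hq2 ▸ hl1, fun n hn1 hn2 => ?_⟩
        have h5 : Nat.find hex = n := by
          apply le_antisymm
          · exact Nat.find_min' hex hn2
          · by_contra hcon
            exact absurd (Nat.find_spec hex) (not_le.2 (hn1 _ (not_le.1 hcon)))
        rw [hq2, h5]
        exact Order.lt_add_one_iff.2 le_rfl
    · obtain ⟨q, hq1, hq2, hq3⟩ := exists_succ r ν
      refine ⟨q, hq1, ?_, fun h => absurd h hr⟩
      refine ⟨r.len, ?_, ?_⟩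
      · show r.len < q.len
        rw [hq2]
        exact Order.lt_add_one_iff.2 le_rfl
      · rw [hq3]
  choose F hF1 hF2 hF3 using hstep
  obtain ⟨p₀, hp1, hp2, hp3⟩ := exists_succ p β
  have hp₀ : p₀.len < ξ := by
    rw [hp2]
    exact hlim.add_one_lt hp
  obtain ⟨δ, N, hG, hTN⟩ := hX (fun s => (run p₀ F s).ran) (fun s => ran_countable _) _
    stat_limits
  have hne : N.Nonempty := by
    have hδ : Order.IsSuccLimit δ := hG.mem
    exact ⟨e 0, (hG.tr 0 (Ordinal.omega_pos 1)).2 hδ.bot_lt⟩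
  obtain ⟨d, hd⟩ := hG.cnt.exists_eq_range hne
  obtain ⟨q, hq0, hqs, hqm, hqN, -⟩ := run_enum hG.cls p₀ F hF1 hF2
    (fun s => Set.Subset.refl _) d hd.symm
  have hql : ∀ n, (q n).len < ξ := by
    intro n
    induction n with
    | zero =>
      rw [hq0]
      exact hp₀
    | succ n ih =>
      rw [hqs]
      exact (hF3 (q n) (d n) ih).1
  have hcf : ∀ m : ℕ, ∃ n, ∀ j < m, x j < (q n).len := by
    intro m
    induction m with
    | zero => exact ⟨0, fun j hj => absurd hj (Nat.not_lt_zero _)⟩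
    | succ m ih2 =>
      obtain ⟨n, hn⟩ := ih2
      by_cases h : x m < (q n).len
      · refine ⟨n, fun j hj => ?_⟩
        rcases (Nat.lt_succ_iff.1 hj).lt_or_eq with h' | h'
        · exact hn j h'
        · rw [h']
          exact h
      · refine ⟨n + 1, fun j hj => ?_⟩
        rcases (Nat.lt_succ_iff.1 hj).lt_or_eq with h' | h'
        · exact (hn j h').trans_le (le_def.1 (hqm n)).1
        · rw [h', hqs]
          exact (hF3 (q n) (d n) (hql n)).2 m hn (not_lt.1 h)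
  have hcf2 : ∀ ζ < ξ, ∃ n, ζ < (q n).len := by
    intro ζ hζ
    obtain ⟨m, hm⟩ := hx2 ζ hζ
    obtain ⟨n, hn⟩ := hcf (m + 1)
    exact ⟨n, hm.trans (hn m (Nat.lt_succ_self m))⟩
  obtain ⟨r, hr1, hr2⟩ := glue hξ q hqm hql hcf2 (by rw [hqN]; exact hTN)
  have hr3 : r ≤ p₀ := hq0 ▸ hr2 0
  refine ⟨r, hr3.trans hp1, hr1, ?_⟩
  rw [← hp3]
  refine (le_def.1 hr3).2 _ ?_
  rw [hp2]
  exact Order.lt_add_one_iff.2 le_rfl

/-- Density. -/
theorem dens (hX : PStatT e X) (ξ : Ordinal.{u}) (hξ : ξ < ω_ 1)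
    (p : Cnd X z) (hp : p.len < ξ) (β : Λ) :
    ∃ q ≤ p, q.len = ξ ∧ q.fn p.len = β := by
  induction ξ using WellFoundedLT.induction generalizing p β with
  | ind ξ ih =>
    rcases Ordinal.zero_or_succ_or_isSuccLimit ξ with h0 | ⟨ζ, h⟩ | h
    · rw [h0] at hp
      exact absurd hp not_lt_bot
    · rw [Order.succ_eq_add_one] at h
      subst h
      have h1 : ζ < ζ + 1 := Order.lt_add_one_iff.2 le_rfl
      rcases (Order.lt_add_one_iff.1 hp).lt_or_eq with h2 | h2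
      · obtain ⟨q, hq1, hq2, hq3⟩ := ih ζ h1 (h1.trans hξ) p h2 β
        obtain ⟨r, hr1, hr2, -⟩ := exists_succ q z
        refine ⟨r, hr1.trans hq1, by rw [hr2, hq2], ?_⟩
        rw [(le_def.1 hr1).2 p.len (hq2 ▸ h2)]
        exact hq3
      · obtain ⟨q, hq1, hq2, hq3⟩ := exists_succ p β
        exact ⟨q, hq1, by rw [hq2, h2], hq3⟩
    · exact dens_limit hX hξ h (fun ζ hζ p hp β => ih ζ hζ (hζ.trans hξ) p hp β) p hp β

/-! ### Preservation of stationary sets -/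

/-- The ordinal added in the last step. -/
private def vl (p₀ : Cnd X z) (F : Cnd X z → Λ → Cnd X z)
    (a : Cnd X z → Λ → Ordinal.{u}) : List Λ → Ordinal.{u}
  | [] => 0
  | β :: t => a (run p₀ F t) β

/-- Preservation of stationary sets. -/
theorem preserves (he : ∀ ξ < ω_ 1, ∀ ζ < ω_ 1, e ξ = e ζ → ξ = ζ) (hX : PStatT e X) :
    PreservesStat.{u} (Cnd X z) := by
  classical
  intro E hE p N hN
  have hom : ℵ₀ < (ω_ 1 : Ordinal.{u}).cof := aleph0_lt_cof_omega1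
  have hlim : Order.IsSuccLimit (ω_ 1 : Ordinal.{u}) :=
    Ordinal.one_lt_cof_iff.1 (one_lt_aleph0.trans hom)
  -- one step
  have hstep : ∀ (r : Cnd X z) (ν : Λ), ∃ x : Cnd X z × Ordinal.{u}, x.1 ≤ r ∧
      ν ∈ x.1.ran ∧ x.2 < ω_ 1 ∧
      (r ≤ p → (∀ ζ < ω_ 1, e ζ = ν → ζ < x.1.len) ∧ r.len < x.2 ∧ N x.1 x.2) := by
    intro r ν
    by_cases hr : r ≤ p
    · obtain ⟨ζ, hζ1, hζ2, hζ3⟩ : ∃ ζ < ω_ 1, r.len < ζ ∧ ∀ ξ < ω_ 1, e ξ = ν → ξ < ζ := by
        by_cases h : ∃ ξ < ω_ 1, e ξ = ν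
        · obtain ⟨ξ, hξ, hξν⟩ := h
          refine ⟨max (r.len + 1) (ξ + 1), max_lt (hlim.add_one_lt r.isCnd.lt)
            (hlim.add_one_lt hξ), lt_max_of_lt_left (Order.lt_add_one_iff.2 le_rfl),
            fun ξ' hξ' h' => ?_⟩
          rw [he ξ' hξ' ξ hξ (h'.trans hξν.symm)]
          exact lt_max_of_lt_right (Order.lt_add_one_iff.2 le_rfl)
        · exact ⟨r.len + 1, hlim.add_one_lt r.isCnd.lt, Order.lt_add_one_iff.2 le_rfl,
            fun ξ hξ h' => absurd ⟨ξ, hξ, h'⟩ h⟩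
      obtain ⟨q1, hq1, hq1l, hq1f⟩ := dens hX ζ hζ1 r hζ2 ν
      obtain ⟨q, hq, β, hβ, hβ2, hNq⟩ := hN.unbounded q1 (hq1.trans hr) r.len r.isCnd.lt
      refine ⟨(q, β), hq.trans hq1, ?_, hβ, fun _ => ⟨fun ξ hξ h => ?_, hβ2, hNq⟩⟩
      · refine ran_mono hq ⟨r.len, ?_, ?_⟩
        · show r.len < q1.len
          rw [hq1l]
          exact hζ2
        · rw [hq1f]
      · refine (hζ3 ξ hξ h).trans_le ?_
        rw [← hq1l]
        exact (le_def.1 hq).1
    · obtain ⟨q, hq1, hq2, hq3⟩ := exists_succ r ν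
      refine ⟨(q, 0), hq1, ?_, Ordinal.omega_pos 1, fun h => absurd h hr⟩
      refine ⟨r.len, ?_, ?_⟩
      · show r.len < q.len
        rw [hq2]
        exact Order.lt_add_one_iff.2 le_rfl
      · rw [hq3]
  choose G hG1 hG2 hG3 hG4 using hstep
  let F : Cnd X z → Λ → Cnd X z := fun r ν => (G r ν).1
  let a : Cnd X z → Λ → Ordinal.{u} := fun r ν => (G r ν).2
  let K : List Λ → Set Λ := fun s =>
    (run p F s).ran ∪ {e (run p F s).len, e (vl p F a s)}
  have hK : ∀ s, (K s).Countable := fun s =>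
    (ran_countable _).union (Set.toFinite _).countable
  have hE'' := StatIn.inter_club hom hE (club_limits hom)
  obtain ⟨δ, M, hM, hTM⟩ := hX K hK _ hE''
  have hδlim : Order.IsSuccLimit δ := hM.mem.2
  obtain ⟨d, hd⟩ := hM.cnt.exists_eq_range ⟨e 0, (hM.tr 0 (Ordinal.omega_pos 1)).2 hδlim.bot_lt⟩
  obtain ⟨q, hq0, hqs, hqm, hqN, hqL⟩ := run_enum hM.cls p F hG1 hG2
    (fun s => Set.subset_union_left) d hd.symm
  have hqp : ∀ n, q n ≤ p := by
    intro n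
    induction n with
    | zero => exact le_of_eq hq0
    | succ n ih => exact (hqm n).trans ih
  have hlen : ∀ n, (q n).len < δ := by
    intro n
    obtain ⟨s, hs, hsq⟩ := hqL n
    refine (hM.tr _ (q n).isCnd.lt).1 (hM.cls s hs ?_)
    rw [hsq]
    exact Or.inr (Or.inl rfl)
  have hdM : ∀ n, d n ∈ M := fun n => hd ▸ ⟨n, rfl⟩
  have hval2 : ∀ n, a (q n) (d n) < δ := by
    intro n
    obtain ⟨s, hs, hsq⟩ := hqL n
    refine (hM.tr _ (hG3 _ _)).1 (hM.cls (d n :: s) ?_ ?_)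
    · intro y hy
      rcases List.mem_cons.1 hy with h | h
      · rw [h]
        exact hdM n
      · exact hs y h
    · rw [hsq]
      exact Or.inr (Or.inr rfl)
  have hcof : ∀ ζ < δ, ∃ n, ζ < (q n).len := by
    intro ζ hζ
    obtain ⟨n, hn⟩ : e ζ ∈ range d := hd ▸ (hM.tr ζ (hζ.trans hM.lt)).2 hζ
    refine ⟨n + 1, ?_⟩
    rw [hqs]
    exact (hG4 (q n) (d n) (hqp n)).1 ζ (hζ.trans hM.lt) hn.symm
  obtain ⟨r, hr1, hr2⟩ := glue hM.lt q hqm hlen hcof (by rw [hqN]; exact hTM)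
  have hrp : r ≤ p := (hr2 0).trans (hqp 0)
  obtain ⟨s, hs, hNs⟩ := hN.closed r hrp δ hM.lt hδlim.bot_lt (by
    intro α hα r' hr'
    obtain ⟨n, hn⟩ := hcof α hα
    have h3 := hG4 (q n) (d n) (hqp n)
    refine ⟨r', le_rfl, a (q n) (d n), hval2 n, hn.trans h3.2.1, ?_⟩
    refine hN.mono r' (q (n + 1)) _ (hr'.trans (hr2 (n + 1))) ?_
    rw [hqs]
    exact h3.2.2) r le_rfl
  exact ⟨s, hs.trans hrp, δ, hM.mem.1, hM.lt, hNs⟩

end Cnd

/-- Reflection of projectively stationary sets. -/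
theorem srp (h : MM.{u}) {Λ : Type u} (e : Ordinal.{u} → Λ)
    (he : ∀ ξ < ω_ 1, ∀ ζ < ω_ 1, e ξ = e ζ → ξ = ζ) {X : Set Λ → Prop} (hX : PStatT e X) :
    ∃ g : Ordinal.{u} → Λ, (∀ ξ < ω_ 1, Order.IsSuccLimit ξ → X (g '' Iio ξ)) ∧
      ∀ ξ < ω_ 1, ∃ ζ < ω_ 1, g ζ = e ξ := by
  classical
  have hlim : Order.IsSuccLimit (ω_ 1 : Ordinal.{u}) :=
    Ordinal.one_lt_cof_iff.1 (one_lt_aleph0.trans aleph0_lt_cof_omega1)
  obtain ⟨G, hG⟩ := MM.small h (Cnd X (e 0)) (Cnd.preserves he hX)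
    (fun i => {q : Cnd X (e 0) | i < q.len ∧ e i ∈ q.ran}) (by
      intro i hi p
      obtain ⟨p1, hp1, hp2⟩ : ∃ p1 ≤ p, i < p1.len := by
        rcases lt_or_ge i p.len with h1 | h1
        · exact ⟨p, le_rfl, h1⟩
        · have h2 : p.len < i + 1 := Order.lt_add_one_iff.2 h1
          obtain ⟨q, hq1, hq2, -⟩ := Cnd.dens hX (i + 1) (hlim.add_one_lt hi) p h2 (e 0)
          refine ⟨q, hq1, ?_⟩
          rw [hq2]
          exact Order.lt_add_one_iff.2 le_rfl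
      obtain ⟨q, hq1, hq2, hq3⟩ := Cnd.exists_succ p1 (e i)
      have h3 : p1.len < q.len := by
        rw [hq2]
        exact Order.lt_add_one_iff.2 le_rfl
      exact ⟨q, hq1.trans hp1, hp2.trans h3, p1.len, h3, hq3⟩)
  have hex : ∀ ξ < ω_ 1, ∃ q ∈ G, ξ < q.len := by
    intro ξ hξ
    obtain ⟨q, hq, h2⟩ := hG.meets ξ hξ
    exact ⟨q, hq, h2.1⟩
  let g : Ordinal.{u} → Λ := fun ξ =>
    if h : ∃ q ∈ G, ξ < q.len then (Classical.choose h).fn ξ else e 0
  have hg : ∀ q ∈ G, ∀ ξ < q.len, g ξ = q.fn ξ := by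
    intro q hq ξ hξ
    have h1 : ∃ q ∈ G, ξ < q.len := ⟨q, hq, hξ⟩
    have h2 : g ξ = (Classical.choose h1).fn ξ := dif_pos h1
    obtain ⟨h3, h4⟩ := Classical.choose_spec h1
    obtain ⟨r, _, hr1, hr2⟩ := hG.dir _ h3 q hq
    rw [h2, ← (Cnd.le_def.1 hr1).2 ξ h4, ← (Cnd.le_def.1 hr2).2 ξ hξ]
  refine ⟨g, ?_, ?_⟩
  · intro ξ hξ hl
    obtain ⟨q, hq, h1⟩ := hex ξ hξ
    have h2 : g '' Iio ξ = q.fn '' Iio ξ :=
      Set.image_congr fun ζ hζ => hg q hq ζ (lt_trans hζ h1)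
    rw [h2]
    exact q.isCnd.pat ξ h1.le hl
  · intro ξ hξ
    obtain ⟨q, hq, h1, ζ, hζ, h2⟩ := hG.meets ξ hξ
    exact ⟨ζ, lt_trans hζ q.isCnd.lt, (hg q hq ζ hζ).trans h2⟩

/-! ### Closed sets -/

/-- The stages of the closure. -/
private def stg {Λ : Type u} (K : List Λ → Set Λ) (A : Set Λ) : ℕ → Set Λ
  | 0 => A
  | n + 1 => stg K A n ∪ ⋃ s ∈ {s : List Λ | ∀ y ∈ s, y ∈ stg K A n}, K s

private theorem stg_mono {Λ : Type u} (K : List Λ → Set Λ) (A : Set Λ) {m n : ℕ} (h : m ≤ n) :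
    stg K A m ⊆ stg K A n := by
  induction n, h using Nat.le_induction with
  | base => exact Set.Subset.rfl
  | succ n _ ih => exact ih.trans Set.subset_union_left

private theorem lists_countable {Λ : Type u} {A : Set Λ} (hA : A.Countable) :
    {s : List Λ | ∀ y ∈ s, y ∈ A}.Countable := by
  have := hA.to_subtype
  have h : {s : List Λ | ∀ y ∈ s, y ∈ A} ⊆ range (List.map (Subtype.val : A → Λ)) := by
    intro s hs
    have hs' : ∀ y ∈ s, y ∈ A := hs
    exact ⟨s.pmap Subtype.mk hs', by simp [List.map_pmap]⟩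
  exact (Set.countable_range _).mono h

private theorem stg_countable {Λ : Type u} {K : List Λ → Set Λ} (hK : ∀ s, (K s).Countable)
    {A : Set Λ} (hA : A.Countable) (n : ℕ) : (stg K A n).Countable := by
  induction n with
  | zero => exact hA
  | succ n ih => exact ih.union ((lists_countable ih).biUnion fun s _ => hK s)

private theorem exists_closure {Λ : Type u} {K : List Λ → Set Λ} (hK : ∀ s, (K s).Countable) :
    ∃ cl : Set Λ → Set Λ, ∀ A : Set Λ, (A.Countable → (cl A).Countable) ∧ A ⊆ cl A ∧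
      ClsT K (cl A) ∧ ∀ B, A ⊆ B → cl A ⊆ cl B := by
  refine ⟨fun A => ⋃ n, stg K A n, fun A => ⟨fun hA => ?_, ?_, ?_, ?_⟩⟩
  · exact Set.countable_iUnion fun n => stg_countable hK hA n
  · exact Set.subset_iUnion (stg K A) 0
  · intro s hs
    obtain ⟨n, hn⟩ : ∃ n, ∀ y ∈ s, y ∈ stg K A n := by
      induction s with
      | nil => exact ⟨0, fun y hy => absurd hy (by simp)⟩
      | cons x t ih =>
        obtain ⟨n, hn⟩ := ih fun y hy => hs y (List.mem_cons_of_mem x hy)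
        obtain ⟨m, hm⟩ := Set.mem_iUnion.1 (hs x List.mem_cons_self)
        refine ⟨max n m, fun y hy => ?_⟩
        rcases List.mem_cons.1 hy with h | h
        · rw [h]
          exact stg_mono K A (le_max_right n m) hm
        · exact stg_mono K A (le_max_left n m) (hn y h)
    refine Set.Subset.trans ?_ (Set.subset_iUnion (stg K A) (n + 1))
    refine Set.Subset.trans ?_ Set.subset_union_right
    exact Set.subset_biUnion_of_mem (u := K) hn
  · intro B hAB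
    refine Set.iUnion_mono fun n => ?_
    induction n with
    | zero => exact hAB
    | succ n ih =>
      refine Set.union_subset_union ih ?_
      exact Set.biUnion_subset_biUnion_left fun s hs y hy => ih (hs y hy)

private theorem seg_club (a : Ordinal.{u}) (ha : a < ω_ 1) :
    ClubIn {δ : Ordinal.{u} | a < δ} (ω_ 1) := by
  have hlim : Order.IsSuccLimit (ω_ 1 : Ordinal.{u}) :=
    Ordinal.one_lt_cof_iff.1 (one_lt_aleph0.trans aleph0_lt_cof_omega1)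
  refine ⟨fun x hx => ⟨Order.succ (max a x), ?_, ?_, hlim.succ_lt (max_lt ha hx)⟩, ?_⟩
  · exact lt_of_le_of_lt (le_max_left a x) (Order.lt_succ (max a x))
  · exact lt_of_le_of_lt (le_max_right a x) (Order.lt_succ (max a x))
  · intro δ _ hδ0 hu
    obtain ⟨y, hy, _, hy2⟩ := hu 0 hδ0
    exact lt_trans hy hy2

/-- A countable set of countable ordinals is bounded. -/
private theorem bdd_countable {S : Set Ordinal.{u}} (hS : S.Countable) (h1 : ∀ ξ ∈ S, ξ < ω_ 1) :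
    ∃ b < ω_ 1, ∀ ξ ∈ S, ξ < b := by
  have hlim : Order.IsSuccLimit (ω_ 1 : Ordinal.{u}) :=
    Ordinal.one_lt_cof_iff.1 (one_lt_aleph0.trans aleph0_lt_cof_omega1)
  rcases S.eq_empty_or_nonempty with h | h
  · exact ⟨0, Ordinal.omega_pos 1, fun ξ hξ => absurd hξ (by rw [h]; exact Set.notMem_empty ξ)⟩
  · obtain ⟨f, rfl⟩ := hS.exists_eq_range h
    refine ⟨⨆ n : ULift.{u} ℕ, Order.succ (f n.down), ?_, ?_⟩
    · refine Ordinal.iSup_lt_of_lt_cof ?_ fun n => hlim.succ_lt (h1 _ ⟨n.down, rfl⟩)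
      rw [Cardinal.mk_uLift, Cardinal.mk_nat, Cardinal.lift_aleph0]
      exact aleph0_lt_cof_omega1
    · rintro _ ⟨n, rfl⟩
      exact (Order.lt_succ _).trans_le
        (Ordinal.le_iSup (fun n : ULift.{u} ℕ => Order.succ (f n.down)) ⟨n⟩)

/-- Closed countable sets with a given trace on `ω₁`. -/
theorem exists_gdT {Λ : Type u} (e : Ordinal.{u} → Λ)
    (he : ∀ ξ < ω_ 1, ∀ ζ < ω_ 1, e ξ = e ζ → ξ = ζ) (K : List Λ → Set Λ)
    (hK : ∀ s, (K s).Countable) {E : Set Ordinal.{u}} (hE : StatIn E (ω_ 1)) :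
    ∃ δ N, GdT e K E δ N := by
  classical
  have hom : ℵ₀ < (ω_ 1 : Ordinal.{u}).cof := aleph0_lt_cof_omega1
  obtain ⟨cl, hcl⟩ := exists_closure hK
  have hcnt : ∀ ξ < ω_ 1, (cl (e '' Iio ξ)).Countable := fun ξ hξ =>
    (hcl _).1 ((iio_countable hξ).image _)
  have hb : ∀ ξ : Ordinal.{u}, ∃ b < ω_ 1, ξ < ω_ 1 → ∀ ζ < ω_ 1, e ζ ∈ cl (e '' Iio ξ) →
      ζ < b := by
    intro ξ
    by_cases hξ : ξ < ω_ 1
    · obtain ⟨b, hb1, hb2⟩ := bdd_countable (S := {ζ | ζ < ω_ 1 ∧ e ζ ∈ cl (e '' Iio ξ)}) (by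
        refine Set.MapsTo.countable_of_injOn (f := e) (t := cl (e '' Iio ξ)) (fun ζ hζ => hζ.2)
          (fun ζ hζ ζ' hζ' h => he ζ hζ.1 ζ' hζ'.1 h) (hcnt ξ hξ)) (fun ζ hζ => hζ.1)
      exact ⟨b, hb1, fun _ ζ h1 h2 => hb2 ζ ⟨h1, h2⟩⟩
    · exact ⟨0, Ordinal.omega_pos 1, fun h => absurd h hξ⟩
  choose b hb1 hb2 using hb
  have hcard : ∀ x < (ω_ 1 : Ordinal.{u}), x.card < (ω_ 1 : Ordinal.{u}).cof := by
    intro x hx
    rw [← Cardinal.ord_aleph] at hx ⊢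
    rw [Cardinal.isRegular_aleph_one.cof_ord]
    exact Cardinal.lt_ord.1 hx
  have hC1 : ClubIn {δ : Ordinal.{u} | ∀ ξ < δ, δ ∈ {δ : Ordinal.{u} | b ξ < δ}} (ω_ 1) :=
    club_diag hom hcard (fun ξ => {δ : Ordinal.{u} | b ξ < δ}) fun ξ _ => seg_club (b ξ) (hb1 ξ)
  obtain ⟨δ, hδE, ⟨hδ1, hδl⟩, hδ⟩ := hE _ (club_inter hom hC1 (club_limits hom))
  have hδl' : Order.IsSuccLimit δ := hδl
  refine ⟨δ, ⋃ ξ ∈ Iio δ, cl (e '' Iio ξ), ?_, ?_, hδE, hδ, ?_⟩
  · exact (iio_countable hδ).biUnion fun ξ hξ => hcnt ξ (lt_trans hξ hδ)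
  · intro s hs
    obtain ⟨ξ, hξ, hsξ⟩ : ∃ ξ < δ, ∀ y ∈ s, y ∈ cl (e '' Iio ξ) := by
      induction s with
      | nil => exact ⟨0, hδl'.bot_lt, fun y hy => absurd hy (by simp)⟩
      | cons x t ih =>
        obtain ⟨ξ, hξ, hξt⟩ := ih fun y hy => hs y (List.mem_cons_of_mem x hy)
        obtain ⟨ζ, hζ, hζx⟩ := Set.mem_iUnion₂.1 (hs x List.mem_cons_self)
        refine ⟨max ξ ζ, max_lt hξ hζ, fun y hy => ?_⟩
        rcases List.mem_cons.1 hy with h | h
        · rw [h]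
          exact (hcl _).2.2.2 _ (Set.image_mono (Set.Iio_subset_Iio (le_max_right ξ ζ))) hζx
        · exact (hcl _).2.2.2 _ (Set.image_mono (Set.Iio_subset_Iio (le_max_left ξ ζ))) (hξt y h)
    refine Set.Subset.trans ((hcl _).2.2.1 s hsξ) ?_
    exact Set.subset_biUnion_of_mem (u := fun ξ => cl (e '' Iio ξ)) hξ
  · intro ξ hξ
    constructor
    · intro h
      obtain ⟨ζ, hζ, hζ2⟩ := Set.mem_iUnion₂.1 h
      exact (hb2 ζ (lt_trans hζ hδ) ξ hξ hζ2).trans (hδ1 ζ hζ)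
    · intro h
      refine Set.mem_iUnion₂.2 ⟨Order.succ ξ, hδl'.succ_lt h, (hcl _).2.1 ?_⟩
      exact ⟨ξ, Order.lt_succ ξ, rfl⟩

end Pool.Agent.Helper56.GL
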