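import Pool.Agent.Helper62.GL.Sr
import Pool.Agent.Helper56.GL.D
import Pool.Agent.Helper56.MW.E1

/-!
# Definability of the order type of a set of ordinals
-/

open FirstOrder FirstOrder.Language Ordinal Cardinal Set Helper23.Pcf

universe u v

namespace Pool.Agent.Helper56.GL

open Pool.Agent.Helper56.MW (val exists_val Df)
open Pool.Agent.Helper56.MW.Df (exO allO exS memO ltO compVal)
open Pool.Agent.Helper62.GL

section

variable {α β : Type}

/-- The order type of the set of ordinals coded by `x` is `ε`, with a coded enumeration. -/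
def OtV (x : ZFSet.{u}) (ε : Ordinal.{u}) : Prop :=
  ∃ g : ZFSet.{u}, (∀ i, i < ε → (val g i).toZFSet ∈ x) ∧
    (∀ ν : Ordinal.{u}, ν.toZFSet ∈ x → ∃ i, i < ε ∧ val g i = ν) ∧
    ∀ i, i < ε → ∀ j, j < i → val g j < val g i

theorem ot_iff (x : ZFSet.{u}) (ε : Ordinal.{u}) :
    Ot {ν | ν.toZFSet ∈ x} ε ↔ OtV x ε := by
  constructor
  · rintro ⟨g, h1, h2, h3⟩
    obtain ⟨g', hg'⟩ := exists_val g ε
    refine ⟨g', fun i hi => ?_, fun ν hν => ?_, fun i hi j hj => ?_⟩
    · rw [hg' i hi]
      exact h1 i hi
    · obtain ⟨i, hi, he⟩ := h2 ν hν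
      exact ⟨i, hi, (hg' i hi).trans he⟩
    · rw [hg' i hi, hg' j (hj.trans hi)]
      exact h3 i hi j hj
  · rintro ⟨g, h1, h2, h3⟩
    refine ⟨val g, fun i hi => h1 i hi, fun ν hν => ?_, fun i hi j hj => h3 i hi j hj⟩
    obtain ⟨i, hi, he⟩ := h2 ν hν
    exact ⟨i, hi, he⟩

theorem df_OtV (x : β) (ε : α) : Df.{u} (fun a s => OtV (s x) (a ε)) := by
  refine exS (P := fun g a s => (∀ i, i < a ε → (val g i).toZFSet ∈ s x) ∧
    (∀ ν : Ordinal.{u}, ν.toZFSet ∈ s x → ∃ i, i < a ε ∧ val g i = ν) ∧
    ∀ i, i < a ε → ∀ j, j < i → val g j < val g i) (Df.and ?_ (Df.and ?_ ?_))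
  · exact allO (β := Option β) (P := fun i a s => i < a ε → (val (s none) i).toZFSet ∈ s (some x))
      ((ltO none (some ε)).imp
        (compVal (α := Option α) (β := Option β) (P := fun v _ s => v.toZFSet ∈ s (some x))
          none none (memO none (some x))))
  · exact allO (β := Option β) (P := fun ν a s => ν.toZFSet ∈ s (some x) →
        ∃ i, i < a ε ∧ val (s none) i = ν)
      ((memO none (some x)).imp
        (exO (α := Option α) (β := Option β) (P := fun i a s => i < a (some ε) ∧
            val (s none) i = a none)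
          ((ltO none (some (some ε))).and (df_eqVO none none (some none)))))
  · exact allO (β := Option β) (P := fun i a s => i < a ε → ∀ j, j < i →
        val (s none) j < val (s none) i)
      ((ltO none (some ε)).imp
        (allO (α := Option α) (β := Option β) (P := fun j a s => j < a none →
            val (s none) j < val (s none) (a none))
          ((ltO none (some none)).imp (df_ltVV none none none (some none)))))

variable {κ : Type} {D : (κ → Ordinal.{u}) → Ordinal.{u} → ZFSet.{u} → Prop}

/-- The order type of the set of ordinals coded by `x` is some `ε` to which `D` assigns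
something. -/
theorem df_Ot (hD : Df (α := Option κ) (β := Unit) (fun a s => D (fun i => a (some i)) (a none) (s ())))
    (ι : κ → α) (x : β) :
    Df (fun a s => ∃ ε, Ot {ν | ν.toZFSet ∈ s x} ε ∧ ∃ Z, D (fun i => a (ι i)) ε Z) := by
  refine Df.congr (exO (P := fun ε a s => OtV (s x) ε ∧ ∃ Z, D (fun i => a (ι i)) ε Z)
    ((df_OtV x none).and
      (exS (α := Option α) (P := fun Z a _ => D (fun i => a (some (ι i))) (a none) Z)
        (df_D hD (fun i => some (ι i)) none none)))) fun a s => ?_
  exact exists_congr fun ε => and_congr_left' (ot_iff (s x) ε).symm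

end

end Pool.Agent.Helper56.GL
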