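import Pool.Agent.Helper62.GL.P3
import Pool.Agent.Helper97.FP.Ps
import Pool.Agent.Helper56.GL.P4
import Pool.Agent.Helper56.MW.LM

/-!
# Stationary co-stationary subsets of `ω₁` which are blurrily ordinal definable
-/

open FirstOrder FirstOrder.Language Ordinal Cardinal Set Helper23.Pcf

universe u v

namespace Pool.Agent.Helper56.GL

open Pool.Agent.Helper56.MW (OrdDef Df MM HasDefWO ordDef_omega1_of_hasDefWO split_omega1)
open Pool.Agent.Helper56.MW.Df (exO memO)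
open Pool.Agent.Helper97.FP (PStat Gd Blurry ordDef_of_pstat blurry_of_ordDef)
open Pool.Agent.Helper97.FP.Cond (stat_limits)
open Pool.Agent.Helper62.GL

/-- Under Martin's Maximum, all subsets of `ω` are definable from ordinals and any stationary
co-stationary subset of `ω₁`. -/
theorem ordDef_of_bistat (h : MM.{u}) {T : ZFSet.{u}}
    (h1 : StatIn {δ : Ordinal.{u} | δ.toZFSet ∈ T} (ω_ 1))
    (h2 : StatIn {δ : Ordinal.{u} | δ.toZFSet ∉ T} (ω_ 1)) {x : ZFSet.{u}}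
    (hx : x ⊆ (ω : Ordinal.{u}).toZFSet) : OrdDef T x := by
  let P : (Empty → Ordinal.{u}) → ZFSet.{u} → Set Ordinal.{u} → Prop := fun _ s N =>
    ∃ ε : Ordinal.{u}, Ot N ε ∧ ε.toZFSet ∈ s
  have hP : Df (α := Empty) (β := Bool) (fun a s => P a (s false) {ν | ν.toZFSet ∈ s true}) := by
    refine Df.congr (exO (P := fun ε _ s => OtV (s true) ε ∧ ε.toZFSet ∈ s false)
      ((df_OtV true none).and (memO none false))) fun a s => ?_
    exact exists_congr fun ε => and_congr_left' (ot_iff (s true) ε).symm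
  refine ordDef_of_pstat h (T := P) hP (fun i => i.elim) T ?_ ?_ hx
  · intro K hK E hE
    obtain ⟨δ, N, hN, ε, hε, ho⟩ := pstat_ot h h1 K hK E hE
    exact ⟨δ, N, hN, ε, ho, hε⟩
  · intro K hK E hE
    obtain ⟨δ, N, hN, ε, hε, ho⟩ := pstat_ot h h2 K hK E hE
    refine ⟨δ, N, hN, ?_⟩
    rintro ⟨ε', ho', hε'⟩
    rw [ho'.unique ho] at hε'
    exact hε hε'

/-- (P6a) Under Martin's Maximum, if a stationary co-stationary subset of `ω₁` is blurrily ordinal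
definable, then there is a definable well-order of the reals. -/
theorem hasDefWO_of_bistat (h : MM.{u}) {T : ZFSet.{u}} (hT : Blurry T)
    (h1 : StatIn {δ : Ordinal.{u} | δ.toZFSet ∈ T} (ω_ 1))
    (h2 : StatIn {δ : Ordinal.{u} | δ.toZFSet ∉ T} (ω_ 1)) : HasDefWO.{u} := by
  have key : (∀ x : ZFSet.{u}, x ⊆ (ω : Ordinal.{u}).toZFSet → ∃ A, Blurry A ∧ OrdDef A x) ↔
      HasDefWO.{u} := (Pool.Agent.Helper97.FP.main h).out 3 0
  exact key.1 fun x hx => ⟨T, hT, ordDef_of_bistat h h1 h2 hx⟩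

/-- (P6b) A definable well-order of the reals gives a stationary co-stationary subset of `ω₁` which is
(blurrily) ordinal definable. -/
theorem exists_bistat (h : MM.{u}) (hw : HasDefWO.{u}) :
    ∃ T, Blurry T ∧ T ⊆ (ω_ 1 : Ordinal.{u}).toZFSet ∧
      StatIn {δ : Ordinal.{u} | δ.toZFSet ∈ T} (ω_ 1) ∧
      StatIn {δ : Ordinal.{u} | δ.toZFSet ∉ T} (ω_ 1) := by
  obtain ⟨T', hs, h1, h2⟩ := split_omega1 stat_limits.{u}
  have hsub : ZFSet.sep (fun z => ∃ δ ∈ T', z = δ.toZFSet) (ω_ 1 : Ordinal.{u}).toZFSet ⊆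
      (ω_ 1 : Ordinal.{u}).toZFSet := ZFSet.sep_subset
  have hmem : ∀ δ : Ordinal.{u}, δ.toZFSet ∈ ZFSet.sep (fun z => ∃ δ ∈ T', z = δ.toZFSet)
      (ω_ 1 : Ordinal.{u}).toZFSet ↔ δ < ω_ 1 ∧ δ ∈ T' := by
    intro δ
    rw [ZFSet.mem_sep, toZFSet_mem_toZFSet_iff]
    refine and_congr_right fun _ => ⟨?_, fun h3 => ⟨δ, h3, rfl⟩⟩
    rintro ⟨δ', h3, h4⟩
    rw [toZFSet_injective h4]
    exact h3
  refine ⟨_, blurry_of_ordDef (ordDef_omega1_of_hasDefWO h hw hsub), hsub, ?_, ?_⟩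
  · intro C hC
    obtain ⟨δ, h3, h4, h5⟩ := h1 C hC
    exact ⟨δ, (hmem δ).2 ⟨h5, h3⟩, h4, h5⟩
  · intro C hC
    obtain ⟨δ, h3, h4, h5⟩ := h2 C hC
    exact ⟨δ, fun h6 => h3.2 ((hmem δ).1 h6).2, h4, h5⟩

end Pool.Agent.Helper56.GL
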