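import Pool.Agent.Helper62.GL.As
import Pool.Agent.Helper62.GL.Up2
import Pool.Agent.Helper56.GL.P6
import Pool.Agent.Helper56.MW.K

/-!
# Families bounded from below, and the case of a co-stationary set
-/

open FirstOrder FirstOrder.Language Ordinal Cardinal Set Helper23.Pcf

universe u v

namespace Pool.Agent.Helper56.GL

open Pool.Agent.Helper56.MW (LSet OrdDef Df MM HasDefWO val OrdDef.comp ordDef_of_df)
open Pool.Agent.Helper56.MW.Df (exO allO exS allS memO memS ltO leO relabel)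
open Pool.Agent.Helper97.FP (Blurry blurry_of_ordDef)
open Pool.Agent.Helper62.GL

/-- `e` is the graph of a cofinal map from `o` to `γ` which is eventually below all members
of `X`. -/
def Lb (o γ : Ordinal.{u}) (X e : ZFSet.{u}) : Prop :=
  Gr o e ∧ Cs o γ e ∧ ∀ c, c ∈ X → ∃ m, m < o ∧ ∀ n, n < o → m ≤ n → val e n ≤ val c n

theorem df_Lb {α β : Type} (o γ : α) (X e : β) :
    Df.{u} (fun a s => Lb (a o) (a γ) (s X) (s e)) :=
  (df_Gr o e).and ((df_Cs o γ e).and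
    (allS (P := fun c a s => c ∈ s X → ∃ m, m < a o ∧ ∀ n, n < a o → m ≤ n →
        val (s e) n ≤ val c n)
      ((memS none (some X)).imp (df_le o (some e) none))))

/-- (P7) -/
theorem exists_ab_of_be {γ : Ordinal.{u}} {X : ZFSet.{u}} (h : OrdDef ∅ X) (hX : Seqs γ X)
    (hb : BddBe γ X) : ∃ X', OrdDef ∅ X' ∧ Seqs γ X' ∧ BddAb γ X' := by
  obtain ⟨X', hmem⟩ : ∃ X' : ZFSet.{u}, ∀ e, e ∈ X' ↔ Lb ω γ X e := by
    refine ⟨ZFSet.sep (Lb ω γ X) (ZFSet.powerset (ZFSet.prod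
      (ω : Ordinal.{u}).toZFSet γ.toZFSet)), fun e => ?_⟩
    rw [ZFSet.mem_sep, ZFSet.mem_powerset]
    refine and_iff_right_of_imp fun h z hz => ?_
    obtain ⟨n, hn, rfl⟩ := (h.1 z).1 hz
    rw [ZFSet.pair_mem_prod]
    exact ⟨toZFSet_mem_toZFSet_iff.2 hn, toZFSet_mem_toZFSet_iff.2 (h.2.1.1 n hn)⟩
  refine ⟨X', ?_, ⟨?_, fun e he => ?_⟩, ?_⟩
  · refine OrdDef.comp h (α := Fin 2) (P := fun a t => ∀ e, e ∈ t 1 ↔ Lb (a 0) (a 1) (t 0) e)
      ?_ ![ω, γ] fun y => ?_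
    · exact allS (α := Fin 2) (β := Fin 2) (P := fun e a t => e ∈ t 1 ↔ Lb (a 0) (a 1) (t 0) e)
        ((memS none (some 1)).iff (df_Lb 0 1 (some 0) none))
    · change (∀ e, e ∈ y ↔ Lb ω γ X e) ↔ _
      constructor
      · intro h1
        ext e
        rw [hmem]
        exact h1 e
      · rintro rfl e
        exact hmem e
  · obtain ⟨t, ht, ht'⟩ := hb
    have hg := isGraph_range t
    refine ⟨_, (hmem _).2 ⟨gr_of_graph hg, cs_of_val ht (val_of_graph hg), fun c hc => ?_⟩⟩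
    obtain ⟨f, -, hcf⟩ := hX.seq c hc
    obtain ⟨m, hm⟩ := ht' c hc f hcf
    refine ⟨m, Ordinal.natCast_lt_omega0 m, fun n hn hmn => ?_⟩
    obtain ⟨k, rfl⟩ := Ordinal.lt_omega0.1 hn
    rw [val_of_graph hg, val_of_graph hcf]
    exact hm k (by exact_mod_cast hmn)
  · have h1 := (hmem e).1 he
    exact ⟨_, h1.2.1.cofSeq, h1.1.isGraph⟩
  · obtain ⟨c, hc⟩ := hX.ne
    obtain ⟨f, hf, hcf⟩ := hX.seq c hc
    refine ⟨f, hf.lt, fun e he f' hf' => ?_⟩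
    obtain ⟨m, hm, h1⟩ := ((hmem e).1 he).2.2 c hc
    obtain ⟨k, rfl⟩ := Ordinal.lt_omega0.1 hm
    refine ⟨k, fun n hn => ?_⟩
    have h2 := h1 n (Ordinal.natCast_lt_omega0 n) (by exact_mod_cast hn)
    rw [val_of_graph hf', val_of_graph hcf] at h2
    exact h2

/-- (P8) -/
theorem wo_of_split (h : MM.{u}) {n : ℕ} (φ : LSet.Formula (Fin n ⊕ Fin 2))
    (h1 : StatIn {γ : Ordinal.{u} | ∃ Z, Da φ ω γ Z} (ω_ 1))
    (h2 : StatIn {γ : Ordinal.{u} | ¬ ∃ Z, Da φ ω γ Z} (ω_ 1)) : HasDefWO.{u} := by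
  obtain ⟨T, hsub, hmem⟩ : ∃ T : ZFSet.{u}, T ⊆ (ω_ 1 : Ordinal.{u}).toZFSet ∧
      ∀ γ : Ordinal.{u}, γ < ω_ 1 → (γ.toZFSet ∈ T ↔ ∃ Z, Da φ ω γ Z) := by
    refine ⟨ZFSet.sep (fun z => ∃ γ : Ordinal.{u}, z = γ.toZFSet ∧ ∃ Z, Da φ ω γ Z)
      (ω_ 1 : Ordinal.{u}).toZFSet, ZFSet.sep_subset, fun γ hγ => ?_⟩
    rw [ZFSet.mem_sep]
    constructor
    · rintro ⟨-, γ', h3, h4⟩
      rw [toZFSet_injective h3]
      exact h4
    · intro h3
      exact ⟨toZFSet_mem_toZFSet_iff.2 hγ, γ, rfl, h3⟩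
  have hdef : OrdDef ∅ T := by
    refine ordDef_of_df (α := Fin 2) (P := fun a s => s () ⊆ (a 0).toZFSet ∧
      ∀ γ : Ordinal.{u}, γ < a 0 → (γ.toZFSet ∈ s () ↔ ∃ Z, Da φ (a 1) γ Z)) ?_
      ![ω_ 1, ω] _ fun y => ?_
    · refine (Df.subSO () 0).and ?_
      refine allO (α := Fin 2) (β := Unit) (P := fun γ a s => γ < a 0 →
        (γ.toZFSet ∈ s () ↔ ∃ Z, Da φ (a 1) γ Z)) ?_
      refine (ltO none (some 0)).imp ((memO none ()).iff ?_)
      exact exS (α := Option (Fin 2)) (β := Unit)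
        (P := fun Z a _ => Da φ (a (some 1)) (a none) Z) (df_Da φ (some 1) none none)
    · change (y ⊆ (ω_ 1 : Ordinal.{u}).toZFSet ∧ ∀ γ : Ordinal.{u}, γ < ω_ 1 →
        (γ.toZFSet ∈ y ↔ ∃ Z, Da φ ω γ Z)) ↔ _
      constructor
      · rintro ⟨h3, h4⟩
        ext z
        constructor
        · intro hz
          obtain ⟨γ, hγ, rfl⟩ := mem_toZFSet_iff.1 (h3 hz)
          exact (hmem γ hγ).2 ((h4 γ hγ).1 hz)
        · intro hz
          obtain ⟨γ, hγ, rfl⟩ := mem_toZFSet_iff.1 (hsub hz)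
          exact (h4 γ hγ).2 ((hmem γ hγ).1 hz)
      · rintro rfl
        exact ⟨hsub, hmem⟩
  refine hasDefWO_of_bistat h (blurry_of_ordDef hdef) ?_ ?_
  · intro C hC
    obtain ⟨δ, h3, h4, h5⟩ := h1 C hC
    exact ⟨δ, (hmem δ h5).2 h3, h4, h5⟩
  · intro C hC
    obtain ⟨δ, h3, h4, h5⟩ := h2 C hC
    exact ⟨δ, fun h6 => h3 ((hmem δ h5).1 h6), h4, h5⟩

end Pool.Agent.Helper56.GL
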